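import Mathlib

open Finset

namespace Pool.Agent.Lib.MP_129a2b_co

/-- The set of distances determined by a finite set `C` of points of the Euclidean plane `ℂ`. -/
noncomputable def dists (C : Finset ℂ) : Finset ℝ := C.offDiag.image fun p => dist p.1 p.2

/-- The number of unordered pairs of points of `C` at distance `d` (each unordered pair is
counted twice among the ordered pairs of distinct points). -/
noncomputable def mult (C : Finset ℂ) (d : ℝ) : ℕ :=
  (C.offDiag.filter fun p => dist p.1 p.2 = d).card / 2

/-- The multiplicity vector of `C`: the multiplicities of the distances of `C`, in decreasing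
order. -/
noncomputable def multVec (C : Finset ℂ) : List ℕ :=
  ((dists C).val.map (mult C)).sort (· ≥ ·)

/-- `r i C`, for `i = 1, 2, …`: the `i`-th entry of the multiplicity vector of `C`
(`0` if `C` has fewer than `i` distances). -/
noncomputable def r (i : ℕ) (C : Finset ℂ) : ℕ := (multVec C).getD (i - 1) 0

/-- `C` is a convex `n`-gon: `n` points, none in the convex hull of the others. -/
def IsConvexGon (n : ℕ) (C : Finset ℂ) : Prop :=
  C.card = n ∧ ∀ x ∈ C, x ∉ convexHull ℝ ((C.erase x : Finset ℂ) : Set ℂ)

/-- `rmax i n = r_i(n)`: the maximum of `r i C` over all convex `n`-gons `C`. -/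
noncomputable def rmax (i n : ℕ) : ℕ := sSup {k | ∃ C : Finset ℂ, IsConvexGon n C ∧ r i C = k}

end Pool.Agent.Lib.MP_129a2b_co
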