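import Mathlib
import Pool.Agent.Lib.MP_129a2b_co.Defs

section

section

open Finset

namespace Pool.Agent.Lib.MP_129a2b_co

/-! ### The multiplicity vector -/

lemma multVec_length (C : Finset ℂ) : (multVec C).length = (dists C).card := by
  simp [multVec]

lemma mem_multVec {C : Finset ℂ} {k : ℕ} : k ∈ multVec C ↔ ∃ d ∈ dists C, mult C d = k := by
  simp [multVec]

lemma multVec_sorted (C : Finset ℂ) : (multVec C).Pairwise (· ≥ ·) := by
  unfold multVec
  exact Multiset.pairwise_sort _ _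

lemma countP_multVec (C : Finset ℂ) (t : ℕ) :
    (multVec C).countP (fun a => t ≤ a) = ((dists C).filter fun d => t ≤ mult C d).card := by
  have h : (((multVec C : List ℕ) : Multiset ℕ)) = (dists C).val.map (mult C) := by
    unfold multVec; exact Multiset.sort_eq _ _
  have h2 : (multVec C).countP (fun a => decide (t ≤ a)) =
      Multiset.countP (fun a => t ≤ a) ((multVec C : List ℕ) : Multiset ℕ) := by
    rw [Multiset.coe_countP]
  rw [h2, h, Multiset.countP_map]
  rfl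

/-- If `k ≥ 1` distinct distances each occur at least `t` times then `t ≤ r k C`. -/
lemma le_r_of_subset {C : Finset ℂ} {k t : ℕ} (hk : 1 ≤ k) (S : Finset ℝ) (hS : S ⊆ dists C)
    (hc : k ≤ S.card) (ht : ∀ d ∈ S, t ≤ mult C d) : t ≤ r k C := by
  have hcount : k ≤ (multVec C).countP (fun a => t ≤ a) := by
    rw [countP_multVec]
    refine hc.trans (card_le_card ?_)
    intro d hd
    exact mem_filter.2 ⟨hS hd, ht d hd⟩
  have hlen : k - 1 < (multVec C).length := by
    have := List.countP_le_length (p := fun a => decide (t ≤ a)) (l := multVec C)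
    omega
  unfold r
  rw [List.getD_eq_getElem _ _ hlen]
  by_contra hlt
  push Not at hlt
  have hsplit := List.take_append_drop (k - 1) (multVec C)
  rw [← hsplit, List.countP_append] at hcount
  have h1 : ((multVec C).take (k - 1)).countP (fun a => decide (t ≤ a)) ≤ k - 1 := by
    refine (List.countP_le_length).trans ?_
    rw [List.length_take]; omega
  have h2 : ((multVec C).drop (k - 1)).countP (fun a => decide (t ≤ a)) = 0 := by
    rw [List.countP_eq_zero]
    intro a ha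
    simp only [decide_eq_true_eq, not_le]
    obtain ⟨j, hj, rfl⟩ := List.mem_iff_getElem.1 ha
    rw [List.getElem_drop]
    have hjl : k - 1 + j < (multVec C).length := by
      rw [List.length_drop] at hj; omega
    rcases Nat.eq_zero_or_pos j with h0 | h0
    · subst h0; simpa using hlt
    · have := List.pairwise_iff_getElem.1 (multVec_sorted C) (k - 1) (k - 1 + j) hlen hjl
        (by omega)
      exact lt_of_le_of_lt this hlt
  omega

/-- The first entry is a multiplicity, or zero. -/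
lemma r_one_eq (C : Finset ℂ) : r 1 C = 0 ∨ ∃ d ∈ dists C, mult C d = r 1 C := by
  unfold r
  rcases h : multVec C with _ | ⟨a, l⟩
  · left; simp
  · right
    have : a ∈ multVec C := by rw [h]; simp
    obtain ⟨d, hd, hm⟩ := mem_multVec.1 this
    exact ⟨d, hd, by simpa using hm⟩

lemma mult_le (C : Finset ℂ) (d : ℝ) : mult C d ≤ C.card ^ 2 := by
  unfold mult
  refine (Nat.div_le_self _ _).trans ((card_filter_le _ _).trans ?_)
  rw [offDiag_card]
  have : C.card * C.card = C.card ^ 2 := by ring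
  omega

lemma r_le (i : ℕ) (C : Finset ℂ) : r i C ≤ C.card ^ 2 := by
  unfold r
  by_cases h : i - 1 < (multVec C).length
  · rw [List.getD_eq_getElem _ _ h]
    obtain ⟨d, -, hd⟩ := mem_multVec.1 (List.getElem_mem h)
    rw [← hd]; exact mult_le _ _
  · rw [List.getD_eq_default _ _ (by omega)]; exact Nat.zero_le _

lemma r_le_r_one (i : ℕ) (C : Finset ℂ) : r i C ≤ r 1 C := by
  unfold r
  by_cases h : i - 1 < (multVec C).length
  · rw [List.getD_eq_getElem _ _ h, List.getD_eq_getElem _ _ (by omega)]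
    rcases Nat.eq_zero_or_pos (i - 1) with h0 | h0
    · simp [h0]
    · exact List.pairwise_iff_getElem.1 (multVec_sorted C) 0 (i - 1) (by omega) h h0
  · rw [List.getD_eq_default _ _ (by omega)]; exact Nat.zero_le _

lemma bddAbove_r (i n : ℕ) : BddAbove {k | ∃ C : Finset ℂ, IsConvexGon n C ∧ r i C = k} := by
  refine ⟨n ^ 2, ?_⟩
  rintro k ⟨C, hC, rfl⟩
  rw [← hC.1]
  exact r_le i C

lemma r_le_rmax {i n : ℕ} {C : Finset ℂ} (hC : IsConvexGon n C) : r i C ≤ rmax i n :=
  le_csSup (bddAbove_r i n) ⟨C, hC, rfl⟩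

lemma exists_rmax {i n : ℕ} (hne : ∃ C : Finset ℂ, IsConvexGon n C) :
    ∃ C : Finset ℂ, IsConvexGon n C ∧ r i C = rmax i n := by
  obtain ⟨C, hC⟩ := hne
  have := Nat.sSup_mem (s := {k | ∃ C : Finset ℂ, IsConvexGon n C ∧ r i C = k})
    ⟨r i C, C, hC, rfl⟩ (bddAbove_r i n)
  exact this

end Pool.Agent.Lib.MP_129a2b_co
end

section

open Finset

namespace Pool.Agent.Lib.MP_129a2b_co

/-- Real inner product on `ℂ`, in coordinates. -/
def ip (v z : ℂ) : ℝ := v.re * z.re + v.im * z.im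

lemma ip_add_right (v a b : ℂ) : ip v (a + b) = ip v a + ip v b := by
  simp only [ip, Complex.add_re, Complex.add_im]; ring
lemma ip_add_left (v w a : ℂ) : ip (v + w) a = ip v a + ip w a := by
  simp only [ip, Complex.add_re, Complex.add_im]; ring
lemma ip_sub_right (v a b : ℂ) : ip v (a - b) = ip v a - ip v b := by
  simp only [ip, Complex.sub_re, Complex.sub_im]; ring
lemma ip_smul_right (v a : ℂ) (t : ℝ) : ip v (t * a) = t * ip v a := by
  simp only [ip, Complex.mul_re, Complex.mul_im, Complex.ofReal_re, Complex.ofReal_im]; ring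
lemma ip_smul_left (v a : ℂ) (t : ℝ) : ip (t * v) a = t * ip v a := by
  simp only [ip, Complex.mul_re, Complex.mul_im, Complex.ofReal_re, Complex.ofReal_im]; ring
lemma ip_mul_mul (w v a : ℂ) : ip (w * v) (w * a) = Complex.normSq w * ip v a := by
  simp only [ip, Complex.mul_re, Complex.mul_im, Complex.normSq_apply]; ring
lemma ip_zero_right (v : ℂ) : ip v 0 = 0 := by simp [ip]
lemma abs_ip_le (v a : ℂ) : |ip v a| ≤ ‖v‖ * ‖a‖ := by
  have h : ip v a = (starRingEnd ℂ v * a).re := by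
    simp [ip, Complex.mul_re]
  rw [h]
  refine (Complex.abs_re_le_norm _).trans ?_
  rw [norm_mul, Complex.norm_conj]

/-- Every point has a strict supporting functional. -/
def SC (C : Finset ℂ) : Prop := ∀ x ∈ C, ∃ v : ℂ, ∀ z ∈ C, z ≠ x → 0 < ip v (z - x)

lemma SC.subset {C D : Finset ℂ} (h : SC C) (hD : D ⊆ C) : SC D := by
  intro x hx
  obtain ⟨v, hv⟩ := h x (hD hx)
  exact ⟨v, fun z hz hne => hv z (hD hz) hne⟩

lemma IsConvexGon.sc {n : ℕ} {C : Finset ℂ} (h : IsConvexGon n C) : SC C := by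
  intro x hx
  have hx' := h.2 x hx
  have hcl : IsClosed (convexHull ℝ ((C.erase x : Finset ℂ) : Set ℂ)) :=
    ((C.erase x).finite_toSet.isCompact_convexHull ℝ).isClosed
  obtain ⟨f, u, hfx, hfu⟩ := geometric_hahn_banach_point_closed (convex_convexHull ℝ _) hcl hx'
  refine ⟨⟨f 1, f Complex.I⟩, fun z hz hne => ?_⟩
  have hzm : z ∈ convexHull ℝ ((C.erase x : Finset ℂ) : Set ℂ) :=
    subset_convexHull ℝ _ (by simp [hz, hne])
  have h1 := hfu z hzm
  have key : ∀ w : ℂ, f w = w.re * f 1 + w.im * f Complex.I := by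
    intro w
    conv_lhs => rw [← Complex.re_add_im w]
    have : (w.re : ℂ) + (w.im : ℂ) * Complex.I = w.re • (1 : ℂ) + w.im • Complex.I := by
      simp
    rw [this, map_add, map_smul, map_smul, smul_eq_mul, smul_eq_mul]
  have h2 : 0 < f (z - x) := by rw [map_sub]; linarith
  rw [key] at h2
  simp only [ip]; linarith

lemma SC.isConvexGon {C : Finset ℂ} (h : SC C) : IsConvexGon C.card C := by
  refine ⟨rfl, fun x hx hmem => ?_⟩
  obtain ⟨v, hv⟩ := h x hx
  have hconv : Convex ℝ {z : ℂ | 0 < ip v (z - x)} := by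
    intro a ha b hb s t hs ht hst
    simp only [Set.mem_ofPred_eq] at ha hb ⊢
    have e : s • a + t • b - x = s * (a - x) + t * (b - x) := by
      have : (s : ℂ) + t = 1 := by exact_mod_cast hst
      simp only [Complex.real_smul]
      linear_combination x * this
    rw [e, ip_add_right, ip_smul_right, ip_smul_right]
    rcases hs.eq_or_lt with h0 | h0
    · have : t = 1 := by linarith
      subst this; rw [← h0]; linarith
    · have := mul_pos h0 ha
      have := mul_nonneg ht hb.le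
      linarith
  have hsub : ((C.erase x : Finset ℂ) : Set ℂ) ⊆ {z : ℂ | 0 < ip v (z - x)} := by
    intro z hz
    simp only [coe_erase, Set.mem_sdiff, mem_coe, Set.mem_singleton_iff] at hz
    exact hv z hz.1 hz.2
  have := convexHull_min hsub hconv hmem
  simp [ip_zero_right] at this

/-- A similarity `z ↦ w z + b` preserves `SC`. -/
lemma SC.image {C : Finset ℂ} (h : SC C) {w : ℂ} (hw : w ≠ 0) (b : ℂ) :
    SC (C.image fun z => w * z + b) := by
  intro x hx
  obtain ⟨x₀, hx₀, rfl⟩ := mem_image.1 hx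
  obtain ⟨v, hv⟩ := h x₀ hx₀
  refine ⟨w * v, fun z hz hne => ?_⟩
  obtain ⟨z₀, hz₀, rfl⟩ := mem_image.1 hz
  have : w * z₀ + b - (w * x₀ + b) = w * (z₀ - x₀) := by ring
  rw [this, ip_mul_mul]
  refine mul_pos (Complex.normSq_pos.2 hw) (hv z₀ hz₀ ?_)
  rintro rfl; exact hne rfl

/-- A nonempty finite set in convex position can be enlarged by one point. -/
lemma SC.exists_insert {C : Finset ℂ} (h : SC C) (hne : C.Nonempty) :
    ∃ x, x ∉ C ∧ SC (insert x C) := by
  classical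
  obtain ⟨p, hp⟩ := hne
  choose! v hv using h
  -- if `C = {p}`
  by_cases hsing : C = {p}
  · subst hsing
    refine ⟨p + 1, by simp, ?_⟩
    intro y hy
    simp only [mem_insert, mem_singleton] at hy
    rcases hy with rfl | rfl
    · refine ⟨-1, fun z hz hzne => ?_⟩
      simp only [mem_insert, mem_singleton] at hz
      rcases hz with rfl | rfl
      · exact absurd rfl hzne
      · simp [ip]
    · refine ⟨1, fun z hz hzne => ?_⟩
      simp only [mem_insert, mem_singleton] at hz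
      rcases hz with rfl | rfl
      · simp [ip]
      · exact absurd rfl hzne
  -- the supporting vector at `p` is nonzero
  have hex : ∃ q ∈ C, q ≠ p := by
    by_contra hcon
    push Not at hcon
    exact hsing (Finset.eq_singleton_iff_unique_mem.2 ⟨hp, hcon⟩)
  obtain ⟨q, hq, hqp⟩ := hex
  have hvne : v p ≠ 0 := by
    intro h0
    have := hv p hp q hq hqp
    rw [h0] at this
    simp [ip] at this
  set u : ℂ := Complex.I * v p with hu
  -- eventually for small t everything works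
  have ev1 : ∀ᶠ t : ℝ in nhdsWithin 0 (Set.Ioi 0), ∀ z ∈ C.erase p,
      0 < ip (v z) (p + t * u - z) := by
    rw [Filter.eventually_all_finset]
    intro z hz
    have hz' := mem_erase.1 hz
    have hc : Filter.Tendsto (fun t : ℝ => ip (v z) (p + t * u - z)) (nhdsWithin 0 (Set.Ioi 0))
        (nhds (ip (v z) (p + (0 : ℝ) * u - z))) := by
      refine (Continuous.tendsto ?_ _).mono_left nhdsWithin_le_nhds
      unfold ip; fun_prop
    refine hc.eventually (lt_mem_nhds ?_)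
    have := hv z hz'.2 p hp (Ne.symm hz'.1)
    simpa using this
  have ev2 : ∀ᶠ t : ℝ in nhdsWithin 0 (Set.Ioi 0), ∀ z ∈ C.erase p,
      0 < ip (v p + t * u) (z - p) := by
    rw [Filter.eventually_all_finset]
    intro z hz
    have hz' := mem_erase.1 hz
    have hc : Filter.Tendsto (fun t : ℝ => ip (v p + t * u) (z - p)) (nhdsWithin 0 (Set.Ioi 0))
        (nhds (ip (v p + (0 : ℝ) * u) (z - p))) := by
      refine (Continuous.tendsto ?_ _).mono_left nhdsWithin_le_nhds
      unfold ip; fun_prop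
    refine hc.eventually (lt_mem_nhds ?_)
    have := hv p hp z hz'.2 hz'.1
    simpa using this
  have ev3 : ∀ᶠ t : ℝ in nhdsWithin 0 (Set.Ioi 0), ∀ z ∈ C.erase p,
      0 < ip (v p - t * u) (z - (p + t * u)) := by
    rw [Filter.eventually_all_finset]
    intro z hz
    have hz' := mem_erase.1 hz
    have hc : Filter.Tendsto (fun t : ℝ => ip (v p - t * u) (z - (p + t * u)))
        (nhdsWithin 0 (Set.Ioi 0))
        (nhds (ip (v p - (0 : ℝ) * u) (z - (p + (0 : ℝ) * u)))) := by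
      refine (Continuous.tendsto ?_ _).mono_left nhdsWithin_le_nhds
      unfold ip; fun_prop
    refine hc.eventually (lt_mem_nhds ?_)
    have := hv p hp z hz'.2 hz'.1
    simpa using this
  have ev4 : ∀ᶠ t : ℝ in nhdsWithin 0 (Set.Ioi 0), 0 < t := eventually_nhdsWithin_of_forall
    (fun t ht => ht)
  obtain ⟨t, h1, h2, h3, h4⟩ := (ev1.and (ev2.and (ev3.and ev4))).exists
  have hnu : 0 < ip u u := by
    have hu0 : u ≠ 0 := mul_ne_zero Complex.I_ne_zero hvne
    have : ip u u = Complex.normSq u := by simp [ip, Complex.normSq_apply]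
    rw [this]; exact Complex.normSq_pos.2 hu0
  have hvu : ip (v p) u = 0 := by
    simp only [hu, ip, Complex.mul_re, Complex.mul_im, Complex.I_re, Complex.I_im]; ring
  have hxp : p + t * u ≠ p := by
    intro h0
    have : (t : ℂ) * u = 0 := by linear_combination h0
    rcases mul_eq_zero.1 this with h5 | h5
    · exact h4.ne' (by exact_mod_cast h5)
    · rw [h5] at hnu; simp [ip] at hnu
  refine ⟨p + t * u, ?_, ?_⟩
  · intro hmem
    have := h1 (p + t * u) (mem_erase.2 ⟨hxp, hmem⟩)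
    simp [ip_zero_right] at this
  · intro y hy
    rcases mem_insert.1 hy with rfl | hy
    · refine ⟨v p - t * u, fun z hz hzne => ?_⟩
      rcases mem_insert.1 hz with rfl | hz
      · exact absurd rfl hzne
      · by_cases hzp : z = p
        · subst hzp
          have e : z - (z + t * u) = ((-t : ℝ) : ℂ) * u := by push_cast; ring
          rw [e, ip_smul_right]
          have e2 : ip (v z - t * u) u = ip (v z) u - t * ip u u := by
            simp only [ip, Complex.sub_re, Complex.sub_im, Complex.mul_re, Complex.mul_im,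
              Complex.ofReal_re, Complex.ofReal_im]; ring
          rw [e2, hvu]
          nlinarith [mul_pos h4 (mul_pos h4 hnu)]
        · exact h3 z (mem_erase.2 ⟨hzp, hz⟩)
    · by_cases hyp : y = p
      · subst hyp
        refine ⟨v y + t * u, fun z hz hzne => ?_⟩
        rcases mem_insert.1 hz with rfl | hz
        · have e : y + t * u - y = t * u := by ring
          rw [e, ip_smul_right, ip_add_left, ip_smul_left, hvu]
          nlinarith [mul_pos h4 (mul_pos h4 hnu)]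
        · exact h2 z (mem_erase.2 ⟨hzne, hz⟩)
      · refine ⟨v y, fun z hz hzne => ?_⟩
        rcases mem_insert.1 hz with rfl | hz
        · exact h1 y (mem_erase.2 ⟨hyp, hy⟩)
        · exact hv y hy z hz hzne

lemma SC.exists_superset {C : Finset ℂ} (h : SC C) (hne : C.Nonempty) {N : ℕ} (hN : C.card ≤ N) :
    ∃ D : Finset ℂ, C ⊆ D ∧ D.card = N ∧ SC D := by
  classical
  induction N, hN using Nat.le_induction with
  | base => exact ⟨C, Subset.rfl, rfl, h⟩
  | succ N hN ih =>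
    obtain ⟨D, hCD, hD, hSC⟩ := ih
    obtain ⟨x, hx, hx2⟩ := hSC.exists_insert (hne.mono hCD)
    exact ⟨insert x D, hCD.trans (subset_insert _ _), by rw [card_insert_of_notMem hx, hD], hx2⟩

lemma mult_mono {C D : Finset ℂ} (h : C ⊆ D) (d : ℝ) : mult C d ≤ mult D d := by
  unfold mult
  refine Nat.div_le_div_right (card_le_card ?_)
  exact filter_subset_filter _ (offDiag_mono h)

end Pool.Agent.Lib.MP_129a2b_co
end
end

section

section

open Finset

namespace Pool.Agent.Lib.MP_129a2b_co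

/-- A near-vertical unit segment from the lower point `p` to the upper point `q`. -/
def Edge (ε : ℝ) (p q : ℂ) : Prop :=
  (q.re - p.re) ^ 2 + (q.im - p.im) ^ 2 = 1 ∧ |q.re - p.re| ≤ ε ∧ 0 < q.im - p.im

open Classical in
/-- Remove the extreme edges at every vertex. -/
noncomputable def prune (E : Finset (ℂ × ℂ)) : Finset (ℂ × ℂ) :=
  E.filter fun e => (∃ a ∈ E, a.1 = e.1 ∧ a.2.re < e.2.re) ∧ (∃ a ∈ E, a.1 = e.1 ∧ e.2.re < a.2.re) ∧
    (∃ a ∈ E, a.2 = e.2 ∧ a.1.re < e.1.re) ∧ (∃ a ∈ E, a.2 = e.2 ∧ e.1.re < a.1.re)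

open Classical in
lemma card_extremal {α : Type*} (E : Finset α) (f : α → ℂ) (g : α → ℝ) (C : Finset ℂ)
    (hf : ∀ e ∈ E, f e ∈ C) (hinj : ∀ a ∈ E, ∀ b ∈ E, f a = f b → g a = g b → a = b) :
    (E.filter fun e => ∀ a ∈ E, f a = f e → g e ≤ g a).card ≤ C.card := by
  refine card_le_card_of_injOn f ?_ ?_
  · intro e he
    exact hf e (mem_filter.1 he).1
  · intro a ha b hb hab
    have ha' := mem_filter.1 ha
    have hb' := mem_filter.1 hb
    exact hinj a ha'.1 b hb'.1 hab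
      (le_antisymm (ha'.2 b hb'.1 hab.symm) (hb'.2 a ha'.1 hab))

lemma card_le_prune (E : Finset (ℂ × ℂ)) (C : Finset ℂ) (hE : ∀ e ∈ E, e.1 ∈ C ∧ e.2 ∈ C)
    (h1 : ∀ a ∈ E, ∀ b ∈ E, a.1 = b.1 → a.2.re = b.2.re → a = b)
    (h2 : ∀ a ∈ E, ∀ b ∈ E, a.2 = b.2 → a.1.re = b.1.re → a = b) :
    E.card ≤ (prune E).card + 4 * C.card := by
  classical
  have c1 := card_extremal E (fun e => e.1) (fun e => e.2.re) C (fun e he => (hE e he).1) h1
  have c2 := card_extremal E (fun e => e.1) (fun e => -e.2.re) C (fun e he => (hE e he).1)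
    (fun a ha b hb hab hg => h1 a ha b hb hab (neg_injective hg))
  have c3 := card_extremal E (fun e => e.2) (fun e => e.1.re) C (fun e he => (hE e he).2) h2
  have c4 := card_extremal E (fun e => e.2) (fun e => -e.1.re) C (fun e he => (hE e he).2)
    (fun a ha b hb hab hg => h2 a ha b hb hab (neg_injective hg))
  set A1 := E.filter fun e => ∀ a ∈ E, a.1 = e.1 → e.2.re ≤ a.2.re
  set A2 := E.filter fun e => ∀ a ∈ E, a.1 = e.1 → -e.2.re ≤ -a.2.re
  set A3 := E.filter fun e => ∀ a ∈ E, a.2 = e.2 → e.1.re ≤ a.1.re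
  set A4 := E.filter fun e => ∀ a ∈ E, a.2 = e.2 → -e.1.re ≤ -a.1.re
  have hsub : E ⊆ prune E ∪ (A1 ∪ A2 ∪ (A3 ∪ A4)) := by
    intro e he
    by_cases k1 : ∃ a ∈ E, a.1 = e.1 ∧ a.2.re < e.2.re
    swap
    · push Not at k1
      exact mem_union_right _ (mem_union_left _ (mem_union_left _ (mem_filter.2 ⟨he, k1⟩)))
    by_cases k2 : ∃ a ∈ E, a.1 = e.1 ∧ e.2.re < a.2.re
    swap
    · push Not at k2
      exact mem_union_right _ (mem_union_left _ (mem_union_right _ (mem_filter.2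
        ⟨he, fun a ha hae => neg_le_neg (k2 a ha hae)⟩)))
    by_cases k3 : ∃ a ∈ E, a.2 = e.2 ∧ a.1.re < e.1.re
    swap
    · push Not at k3
      exact mem_union_right _ (mem_union_right _ (mem_union_left _ (mem_filter.2 ⟨he, k3⟩)))
    by_cases k4 : ∃ a ∈ E, a.2 = e.2 ∧ e.1.re < a.1.re
    swap
    · push Not at k4
      exact mem_union_right _ (mem_union_right _ (mem_union_right _ (mem_filter.2
        ⟨he, fun a ha hae => neg_le_neg (k4 a ha hae)⟩)))
    exact mem_union_left _ (mem_filter.2 ⟨he, k1, k2, k3, k4⟩)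
  have := card_le_card hsub
  have u1 := card_union_le (prune E) (A1 ∪ A2 ∪ (A3 ∪ A4))
  have u2 := card_union_le (A1 ∪ A2) (A3 ∪ A4)
  have u3 := card_union_le A1 A2
  have u4 := card_union_le A3 A4
  change A1.card ≤ _ at c1
  change A2.card ≤ _ at c2
  change A3.card ≤ _ at c3
  change A4.card ≤ _ at c4
  omega

/-! ### Supporting lines -/

lemma ab_bound {a b α₁ β₁ α₂ β₂ s c κ : ℝ} (hα₁ : 0 < α₁) (hα₂ : 0 < α₂) (hβ₁ : |β₁| ≤ κ * α₁)
    (hβ₂ : |β₂| ≤ κ * α₂) (h1 : 0 < -a * α₁ + b * β₁) (h2 : 0 < a * α₂ + b * β₂)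
    (h3 : 0 < a * s + b * c) (hs : κ * |s| < c) : 0 < b ∧ |a| ≤ κ * b := by
  have hb1 := abs_le.1 hβ₁
  have hb2 := abs_le.1 hβ₂
  by_cases hb : 0 < b
  · refine ⟨hb, abs_le.2 ⟨?_, ?_⟩⟩
    · have : 0 < (a + κ * b) * α₂ := by nlinarith
      have := (pos_iff_pos_of_mul_pos this).mpr hα₂
      linarith
    · have : 0 < (κ * b - a) * α₁ := by nlinarith
      have := (pos_iff_pos_of_mul_pos this).mpr hα₁
      linarith
  · exfalso
    push Not at hb
    have k1 : a < κ * -b := by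
      have : 0 < (κ * -b - a) * α₁ := by nlinarith
      have := (pos_iff_pos_of_mul_pos this).mpr hα₁
      linarith
    have k2 : -(κ * -b) < a := by
      have : 0 < (a + κ * -b) * α₂ := by nlinarith
      have := (pos_iff_pos_of_mul_pos this).mpr hα₂
      linarith
    have k3 : |a| ≤ κ * -b := abs_le.2 ⟨k2.le, k1.le⟩
    have k4 : a * s ≤ κ * -b * |s| := by
      calc a * s ≤ |a * s| := le_abs_self _
        _ = |a| * |s| := abs_mul _ _
        _ ≤ κ * -b * |s| := mul_le_mul_of_nonneg_right k3 (abs_nonneg _)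
    nlinarith



lemma half_le_of_unit {s c ε : ℝ} (h : s ^ 2 + c ^ 2 = 1) (hs : |s| ≤ ε) (hε : ε ≤ 1 / 4)
    (hc : 0 < c) : 1 / 2 ≤ c := by
  have : s ^ 2 ≤ (1 / 4) ^ 2 := by
    rw [← sq_abs s]; exact pow_le_pow_left₀ (abs_nonneg _) (hs.trans hε) 2
  nlinarith

lemma slope_bd {s c s' c' ε : ℝ} (h : s ^ 2 + c ^ 2 = 1) (h' : s' ^ 2 + c' ^ 2 = 1)
    (hs : |s| ≤ ε) (hs' : |s'| ≤ ε) (hε : ε ≤ 1 / 4) (hc : 0 < c) (hc' : 0 < c') :
    |c - c'| ≤ 2 * ε * |s - s'| := by
  have k1 := half_le_of_unit h hs hε hc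
  have k2 := half_le_of_unit h' hs' hε hc'
  have e1 : (c - c') * (c + c') = (s' - s) * (s' + s) := by nlinarith
  have e2 : |c - c'| * (c + c') = |s - s'| * |s' + s| := by
    rw [← abs_of_pos (add_pos hc hc'), ← abs_mul, e1, abs_mul, abs_sub_comm s' s]
  have e3 : |s' + s| ≤ 2 * ε := (abs_add_le _ _).trans (by linarith)
  have e4 : |c - c'| * 1 ≤ |c - c'| * (c + c') :=
    mul_le_mul_of_nonneg_left (by linarith) (abs_nonneg _)
  have e5 : |s - s'| * |s' + s| ≤ |s - s'| * (2 * ε) :=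
    mul_le_mul_of_nonneg_left e3 (abs_nonneg _)
  linarith

lemma unit_dot_lt {s c s' c' : ℝ} (h : s ^ 2 + c ^ 2 = 1) (h' : s' ^ 2 + c' ^ 2 = 1)
    (hne : s ≠ s') : s * s' + c * c' < 1 := by
  have : 0 < (s - s') ^ 2 := (sq_pos_of_ne_zero (sub_ne_zero.2 hne))
  nlinarith [sq_nonneg (c - c')]

end Pool.Agent.Lib.MP_129a2b_co
end

section

open Finset

namespace Pool.Agent.Lib.MP_129a2b_co

lemma lower_support {C : Finset ℂ} (hC : SC C) {ε : ℝ} (hε' : ε ≤ 1 / 4)
    {p q p₁ p₂ : ℂ} (hp : p ∈ C) (hq : q ∈ C) (hp₁ : p₁ ∈ C) (hp₂ : p₂ ∈ C)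
    (e : Edge ε p q) (e1 : Edge ε p₁ q) (e2 : Edge ε p₂ q) (h1 : p₁.re < p.re)
    (h2 : p.re < p₂.re) :
    ∃ σ : ℝ, |σ| ≤ 2 * ε ∧ ∀ z ∈ C, z ≠ p → σ * (z.re - p.re) < z.im - p.im := by
  obtain ⟨v, hv⟩ := hC p hp
  have hε0 : 0 ≤ ε := (abs_nonneg _).trans e.2.1
  have b1 := slope_bd e.1 e1.1 e.2.1 e1.2.1 hε' e.2.2 e1.2.2
  have b2 := slope_bd e.1 e2.1 e.2.1 e2.2.1 hε' e.2.2 e2.2.2
  have r1 : |q.re - p.re - (q.re - p₁.re)| = p.re - p₁.re := by
    rw [abs_of_nonpos] <;> linarith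
  have r2 : |q.re - p.re - (q.re - p₂.re)| = p₂.re - p.re := by
    rw [abs_of_nonneg] <;> linarith
  rw [r1] at b1
  rw [r2] at b2
  have hc := half_le_of_unit e.1 e.2.1 hε' e.2.2
  have k1 := hv p₁ hp₁ (by rintro rfl; exact lt_irrefl _ h1)
  have k2 := hv p₂ hp₂ (by rintro rfl; exact lt_irrefl _ h2)
  have k3 := hv q hq (by rintro rfl; have := e.2.2; simp at this)
  simp only [ip, Complex.sub_re, Complex.sub_im] at k1 k2 k3
  have key := ab_bound (a := v.re) (b := v.im) (α₁ := p.re - p₁.re) (β₁ := p₁.im - p.im)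
    (α₂ := p₂.re - p.re) (β₂ := p₂.im - p.im) (s := q.re - p.re) (c := q.im - p.im)
    (κ := 2 * ε) (by linarith) (by linarith)
    (by
      have : q.im - p.im - (q.im - p₁.im) = p₁.im - p.im := by ring
      rw [this] at b1; exact b1)
    (by
      have : q.im - p.im - (q.im - p₂.im) = p₂.im - p.im := by ring
      rw [this] at b2; exact b2)
    (by linarith) (by linarith) (by linarith) (by
      have : |q.re - p.re| ≤ ε := e.2.1
      nlinarith [abs_nonneg (q.re - p.re)])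
  obtain ⟨hb, hab⟩ := key
  refine ⟨-v.re / v.im, ?_, fun z hz hne => ?_⟩
  · rw [abs_div, abs_neg, abs_of_pos hb, div_le_iff₀ hb]; exact hab
  · have k := hv z hz hne
    simp only [ip, Complex.sub_re, Complex.sub_im] at k
    rw [div_mul_eq_mul_div, div_lt_iff₀ hb]
    linarith

lemma upper_support {C : Finset ℂ} (hC : SC C) {ε : ℝ} (hε' : ε ≤ 1 / 4)
    {p q q₁ q₂ : ℂ} (hp : p ∈ C) (hq : q ∈ C) (hq₁ : q₁ ∈ C) (hq₂ : q₂ ∈ C)
    (e : Edge ε p q) (e1 : Edge ε p q₁) (e2 : Edge ε p q₂) (h1 : q₁.re < q.re)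
    (h2 : q.re < q₂.re) :
    ∃ τ : ℝ, |τ| ≤ 2 * ε ∧ ∀ z ∈ C, z ≠ q → z.im - q.im < τ * (z.re - q.re) := by
  obtain ⟨v, hv⟩ := hC q hq
  have hε0 : 0 ≤ ε := (abs_nonneg _).trans e.2.1
  have b1 := slope_bd e.1 e1.1 e.2.1 e1.2.1 hε' e.2.2 e1.2.2
  have b2 := slope_bd e.1 e2.1 e.2.1 e2.2.1 hε' e.2.2 e2.2.2
  have r1 : |q.re - p.re - (q₁.re - p.re)| = q.re - q₁.re := by
    rw [abs_of_nonneg] <;> linarith
  have r2 : |q.re - p.re - (q₂.re - p.re)| = q₂.re - q.re := by
    rw [abs_of_nonpos] <;> linarith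
  rw [r1] at b1
  rw [r2] at b2
  have hc := half_le_of_unit e.1 e.2.1 hε' e.2.2
  have k1 := hv q₁ hq₁ (by rintro rfl; exact lt_irrefl _ h1)
  have k2 := hv q₂ hq₂ (by rintro rfl; exact lt_irrefl _ h2)
  have k3 := hv p hp (by rintro rfl; have := e.2.2; simp at this)
  simp only [ip, Complex.sub_re, Complex.sub_im] at k1 k2 k3
  have key := ab_bound (a := -v.re) (b := -v.im) (α₁ := q₂.re - q.re) (β₁ := q.im - q₂.im)
    (α₂ := q.re - q₁.re) (β₂ := q.im - q₁.im) (s := q.re - p.re) (c := q.im - p.im)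
    (κ := 2 * ε) (by linarith) (by linarith)
    (by
      have : q.im - p.im - (q₂.im - p.im) = q.im - q₂.im := by ring
      rw [this] at b2; exact b2)
    (by
      have : q.im - p.im - (q₁.im - p.im) = q.im - q₁.im := by ring
      rw [this] at b1; exact b1)
    (by linarith) (by linarith) (by linarith) (by
      have : |q.re - p.re| ≤ ε := e.2.1
      nlinarith [abs_nonneg (q.re - p.re)])
  obtain ⟨hb, hab⟩ := key
  refine ⟨v.re / (-v.im), ?_, fun z hz hne => ?_⟩
  · rw [abs_div, abs_of_pos hb, div_le_iff₀ hb]; rwa [abs_neg] at hab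
  · have k := hv z hz hne
    simp only [ip, Complex.sub_re, Complex.sub_im] at k
    rw [div_mul_eq_mul_div, lt_div_iff₀ hb]
    linarith

lemma helperA {c σ s dx dy : ℝ} (hc : 0 < c) (hd : 0 < dx) (h1 : dy < σ * dx)
    (h2 : -s * dx < c * dy) : -s < c * σ := by
  have h3 : c * dy < c * (σ * dx) := mul_lt_mul_of_pos_left h1 hc
  have h4 : -s * dx < c * σ * dx := by linarith
  exact lt_of_mul_lt_mul_right h4 hd.le

lemma helperB {c σ s dx dy : ℝ} (hc : 0 < c) (hd : 0 < dx) (h1 : σ * dx < dy)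
    (h2 : c * dy < -s * dx) : c * σ < -s := by
  have h3 : c * (σ * dx) < c * dy := mul_lt_mul_of_pos_left h1 hc
  have h4 : c * σ * dx < -s * dx := by linarith
  exact lt_of_mul_lt_mul_right h4 hd.le

/-- Chord of a unit circle compared with the tilt of the edge. -/
lemma chord_lt {s c s' c' : ℝ} (h : s ^ 2 + c ^ 2 = 1) (h' : s' ^ 2 + c' ^ 2 = 1)
    (hne : s ≠ s') : -s * (s - s') < c * (c - c') := by
  have := unit_dot_lt h h' hne
  nlinarith

/-- The edges which survive two prunings all have nearly the same horizontal position. -/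
lemma localize {C : Finset ℂ} (hC : SC C) {ε : ℝ} (hε' : ε ≤ 1 / 4)
    {E : Finset (ℂ × ℂ)} (hE : ∀ e ∈ E, e.1 ∈ C ∧ e.2 ∈ C ∧ Edge ε e.1 e.2)
    {e e' : ℂ × ℂ} (he : e ∈ prune (prune E)) (he' : e' ∈ prune (prune E)) :
    e'.1.re - e.1.re ≤ 6 * ε := by
  classical
  by_contra hcon
  push Not at hcon
  have memE : ∀ a ∈ prune E, a ∈ E := fun a ha => (mem_filter.1 ha).1
  have L : ∀ a ∈ prune E, ∃ σ : ℝ, |σ| ≤ 2 * ε ∧
      ∀ z ∈ C, z ≠ a.1 → σ * (z.re - a.1.re) < z.im - a.1.im := by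
    intro a ha
    obtain ⟨haE, -, -, ⟨b, hb, hb1, hb2⟩, ⟨d, hd, hd1, hd2⟩⟩ := mem_filter.1 ha
    have A := hE a haE
    have B := hE b hb
    have D := hE d hd
    rw [hb1] at B
    rw [hd1] at D
    exact lower_support hC hε' A.1 A.2.1 B.1 D.1 A.2.2 B.2.2 D.2.2 hb2 hd2
  have U : ∀ a ∈ prune E, ∃ τ : ℝ, |τ| ≤ 2 * ε ∧
      ∀ z ∈ C, z ≠ a.2 → z.im - a.2.im < τ * (z.re - a.2.re) := by
    intro a ha
    obtain ⟨haE, ⟨b, hb, hb1, hb2⟩, ⟨d, hd, hd1, hd2⟩, -, -⟩ := mem_filter.1 ha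
    have A := hE a haE
    have B := hE b hb
    have D := hE d hd
    rw [hb1] at B
    rw [hd1] at D
    exact upper_support hC hε' A.1 A.2.1 B.2.1 D.2.1 A.2.2 B.2.2 D.2.2 hb2 hd2
  obtain ⟨he1, -, ⟨a2, ha2, ha21, ha22⟩, -, ⟨a1, ha1, ha11, ha12⟩⟩ := mem_filter.1 he
  obtain ⟨he1', ⟨b2, hb2, hb21, hb22⟩, -, ⟨b1, hb1, hb11, hb12⟩, -⟩ := mem_filter.1 he'
  -- notation: e = (p,q), a1 = (p₂,q), a2 = (p,q₂); e' = (p',q'), b1 = (p₁',q'), b2 = (p',q₁')
  have Ee := hE e (memE e he1)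
  have Ee' := hE e' (memE e' he1')
  have Ea1 := hE a1 (memE a1 ha1)
  have Ea2 := hE a2 (memE a2 ha2)
  have Eb1 := hE b1 (memE b1 hb1)
  have Eb2 := hE b2 (memE b2 hb2)
  obtain ⟨σ₂, -, hσ₂⟩ := L a1 ha1
  obtain ⟨σ₁, -, hσ₁⟩ := L b1 hb1
  obtain ⟨τ₂, -, hτ₂⟩ := U a2 ha2
  obtain ⟨τ₁, -, hτ₁⟩ := U b2 hb2
  rw [ha11] at Ea1
  rw [ha21] at Ea2
  rw [hb11] at Eb1
  rw [hb21] at Eb2
  have i1 := abs_le.1 Ee.2.2.2.1
  have i2 := abs_le.1 Ee'.2.2.2.1
  have i3 := abs_le.1 Ea1.2.2.2.1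
  have i4 := abs_le.1 Ea2.2.2.2.1
  have i5 := abs_le.1 Eb1.2.2.2.1
  have i6 := abs_le.1 Eb2.2.2.2.1
  have X : 0 < b1.1.re - a1.1.re := by linarith
  have X' : 0 < b2.2.re - a2.2.re := by linarith
  -- slopes on the lower chain
  have s1 : σ₂ < σ₁ := by
    have k1 := hσ₂ b1.1 Eb1.1 (by intro h; rw [h] at X; simp at X)
    have k2 := hσ₁ a1.1 Ea1.1 (by intro h; rw [h] at X; simp at X)
    have : 0 < (σ₁ - σ₂) * (b1.1.re - a1.1.re) := by nlinarith
    have := (pos_iff_pos_of_mul_pos this).mpr X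
    linarith
  have s2 : τ₁ < τ₂ := by
    have k1 := hτ₂ b2.2 Eb2.2.1 (by intro h; rw [h] at X'; simp at X')
    have k2 := hτ₁ a2.2 Ea2.2.1 (by intro h; rw [h] at X'; simp at X')
    have : 0 < (τ₂ - τ₁) * (b2.2.re - a2.2.re) := by nlinarith
    have := (pos_iff_pos_of_mul_pos this).mpr X'
    linarith
  set s := e.2.re - e.1.re with hs
  set c := e.2.im - e.1.im with hc
  set s' := e'.2.re - e'.1.re with hs'
  set c' := e'.2.im - e'.1.im with hc'
  have cpos : 0 < c := Ee.2.2.2.2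
  have cpos' : 0 < c' := Ee'.2.2.2.2
  -- lower: -s < c σ₂
  have t1 : -s < c * σ₂ := by
    have k1 := hσ₂ e.1 Ee.1 (by intro h; rw [h] at ha12; exact lt_irrefl _ ha12)
    have k2 := chord_lt (s := s) (c := c) (s' := e.2.re - a1.1.re) (c' := e.2.im - a1.1.im)
      Ee.2.2.1 Ea1.2.2.1 (by intro h; rw [hs] at h; linarith)
    have e1 : s - (e.2.re - a1.1.re) = a1.1.re - e.1.re := by rw [hs]; ring
    have e2 : c - (e.2.im - a1.1.im) = a1.1.im - e.1.im := by rw [hc]; ring
    rw [e1, e2] at k2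
    have hd : 0 < a1.1.re - e.1.re := by linarith
    exact helperA (dx := a1.1.re - e.1.re) (dy := a1.1.im - e.1.im) cpos hd (by linarith)
      (by linarith)
  have t2 : c' * σ₁ < -s' := by
    have k1 := hσ₁ e'.1 Ee'.1 (by intro h; rw [h] at hb12; exact lt_irrefl _ hb12)
    have k2 := chord_lt (s := s') (c := c') (s' := e'.2.re - b1.1.re) (c' := e'.2.im - b1.1.im)
      Ee'.2.2.1 Eb1.2.2.1 (by intro h; rw [hs'] at h; linarith)
    have e1 : s' - (e'.2.re - b1.1.re) = -(e'.1.re - b1.1.re) := by rw [hs']; ring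
    have e2 : c' - (e'.2.im - b1.1.im) = -(e'.1.im - b1.1.im) := by rw [hc']; ring
    rw [e1, e2] at k2
    have hd : 0 < e'.1.re - b1.1.re := by linarith
    exact helperB (dx := e'.1.re - b1.1.re) (dy := e'.1.im - b1.1.im) cpos' hd (by linarith)
      (by linarith)
  have t3 : c * τ₂ < -s := by
    have k1 := hτ₂ e.2 Ee.2.1 (by intro h; rw [h] at ha22; exact lt_irrefl _ ha22)
    have k2 := chord_lt (s := s) (c := c) (s' := a2.2.re - e.1.re) (c' := a2.2.im - e.1.im)
      Ee.2.2.1 Ea2.2.2.1 (by intro h; rw [hs] at h; linarith)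
    have e1 : s - (a2.2.re - e.1.re) = -(a2.2.re - e.2.re) := by rw [hs]; ring
    have e2 : c - (a2.2.im - e.1.im) = -(a2.2.im - e.2.im) := by rw [hc]; ring
    rw [e1, e2] at k2
    have hd : 0 < a2.2.re - e.2.re := by linarith
    exact helperB (dx := a2.2.re - e.2.re) (dy := a2.2.im - e.2.im) cpos hd (by linarith)
      (by linarith)
  have t4 : -s' < c' * τ₁ := by
    have k1 := hτ₁ e'.2 Ee'.2.1 (by intro h; rw [h] at hb22; exact lt_irrefl _ hb22)
    have k2 := chord_lt (s := s') (c := c') (s' := b2.2.re - e'.1.re) (c' := b2.2.im - e'.1.im)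
      Ee'.2.2.1 Eb2.2.2.1 (by intro h; rw [hs'] at h; linarith)
    have e1 : s' - (b2.2.re - e'.1.re) = e'.2.re - b2.2.re := by rw [hs']; ring
    have e2 : c' - (b2.2.im - e'.1.im) = e'.2.im - b2.2.im := by rw [hc']; ring
    rw [e1, e2] at k2
    have hd : 0 < e'.2.re - b2.2.re := by linarith
    exact helperA (dx := e'.2.re - b2.2.re) (dy := e'.2.im - b2.2.im) cpos' hd (by linarith)
      (by linarith)
  have w1 : τ₂ < σ₂ := lt_of_mul_lt_mul_left (t3.trans t1) cpos.le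
  have w2 : σ₁ < τ₁ := lt_of_mul_lt_mul_left (t2.trans t4) cpos'.le
  linarith

end Pool.Agent.Lib.MP_129a2b_co
end

section

open Finset

namespace Pool.Agent.Lib.MP_129a2b_co

lemma Edge.inj_right {ε : ℝ} {p q q' : ℂ} (h : Edge ε p q) (h' : Edge ε p q')
    (hre : q.re = q'.re) : q = q' := by
  have h1 := h.1
  have h2 := h'.1
  rw [hre] at h1
  have h3 := h.2.2
  have h4 := h'.2.2
  have : q.im = q'.im := by nlinarith
  exact Complex.ext hre this

lemma Edge.inj_left {ε : ℝ} {p p' q : ℂ} (h : Edge ε p q) (h' : Edge ε p' q)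
    (hre : p.re = p'.re) : p = p' := by
  have h1 := h.1
  have h2 := h'.1
  rw [hre] at h1
  have h3 := h.2.2
  have h4 := h'.2.2
  have : p.im = p'.im := by nlinarith
  exact Complex.ext hre this

lemma card_le_prune' {C : Finset ℂ} {ε : ℝ} {E : Finset (ℂ × ℂ)}
    (hE : ∀ e ∈ E, e.1 ∈ C ∧ e.2 ∈ C ∧ Edge ε e.1 e.2) :
    E.card ≤ (prune E).card + 4 * C.card := by
  refine card_le_prune E C (fun e he => ⟨(hE e he).1, (hE e he).2.1⟩) ?_ ?_
  · intro a ha b hb hab hre
    have A := (hE a ha).2.2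
    have B := (hE b hb).2.2
    rw [hab] at A
    exact Prod.ext hab (A.inj_right B hre)
  · intro a ha b hb hab hre
    have A := (hE a ha).2.2
    have B := (hE b hb).2.2
    rw [hab] at A
    exact Prod.ext (A.inj_left B hre) hab

lemma mem_of_mem_prune {E : Finset (ℂ × ℂ)} {e : ℂ × ℂ} (h : e ∈ prune E) : e ∈ E := by
  classical
  exact (mem_filter.1 h).1

/-- Lower supports for pruned edges. -/
lemma prune_lower {C : Finset ℂ} (hC : SC C) {ε : ℝ} (hε' : ε ≤ 1 / 4)
    {E : Finset (ℂ × ℂ)} (hE : ∀ e ∈ E, e.1 ∈ C ∧ e.2 ∈ C ∧ Edge ε e.1 e.2)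
    {a : ℂ × ℂ} (ha : a ∈ prune E) : ∃ σ : ℝ, |σ| ≤ 2 * ε ∧
      ∀ z ∈ C, z ≠ a.1 → σ * (z.re - a.1.re) < z.im - a.1.im := by
  classical
  obtain ⟨haE, -, -, ⟨b, hb, hb1, hb2⟩, ⟨d, hd, hd1, hd2⟩⟩ := mem_filter.1 ha
  have A := hE a haE
  have B := hE b hb
  have D := hE d hd
  rw [hb1] at B
  rw [hd1] at D
  exact lower_support hC hε' A.1 A.2.1 B.1 D.1 A.2.2 B.2.2 D.2.2 hb2 hd2

lemma prune_upper {C : Finset ℂ} (hC : SC C) {ε : ℝ} (hε' : ε ≤ 1 / 4)
    {E : Finset (ℂ × ℂ)} (hE : ∀ e ∈ E, e.1 ∈ C ∧ e.2 ∈ C ∧ Edge ε e.1 e.2)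
    {a : ℂ × ℂ} (ha : a ∈ prune E) : ∃ τ : ℝ, |τ| ≤ 2 * ε ∧
      ∀ z ∈ C, z ≠ a.2 → z.im - a.2.im < τ * (z.re - a.2.re) := by
  classical
  obtain ⟨haE, ⟨b, hb, hb1, hb2⟩, ⟨d, hd, hd1, hd2⟩, -, -⟩ := mem_filter.1 ha
  have A := hE a haE
  have B := hE b hb
  have D := hE d hd
  rw [hb1] at B
  rw [hd1] at D
  exact upper_support hC hε' A.1 A.2.1 B.2.1 D.2.1 A.2.2 B.2.2 D.2.2 hb2 hd2

lemma norm_le_add (z : ℂ) : ‖z‖ ≤ |z.re| + |z.im| := Complex.norm_le_abs_re_add_abs_im z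

/-- All surviving edges are close to the vertical segment at the first one. -/
lemma cluster {C : Finset ℂ} (hC : SC C) {ε : ℝ} (hε' : ε ≤ 1 / 4)
    {E : Finset (ℂ × ℂ)} (hE : ∀ e ∈ E, e.1 ∈ C ∧ e.2 ∈ C ∧ Edge ε e.1 e.2)
    {e₀ e : ℂ × ℂ} (he₀ : e₀ ∈ prune (prune E)) (he : e ∈ prune (prune E)) :
    ‖e.1 - (e₀.1 + Complex.I / 2) + Complex.I / 2‖ ≤ 11 * ε ∧
    ‖e.2 - (e₀.1 + Complex.I / 2) - Complex.I / 2‖ ≤ 11 * ε := by
  have m := mem_of_mem_prune he
  have m₀ := mem_of_mem_prune he₀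
  have Ee := hE e (mem_of_mem_prune m)
  have Ee₀ := hE e₀ (mem_of_mem_prune m₀)
  have hε0 : 0 ≤ ε := (abs_nonneg _).trans Ee.2.2.2.1
  have X1 := localize hC hε' hE he₀ he
  have X2 := localize hC hε' hE he he₀
  have hX : |e.1.re - e₀.1.re| ≤ 6 * ε := abs_le.2 ⟨by linarith, X1⟩
  have hY : |e.1.im - e₀.1.im| ≤ 3 * ε := by
    by_cases heq : e.1 = e₀.1
    · rw [heq]; simp; linarith
    obtain ⟨σ, hσ, hs⟩ := prune_lower hC hε' hE m
    obtain ⟨σ₀, hσ₀, hs₀⟩ := prune_lower hC hε' hE m₀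
    have k1 := hs e₀.1 Ee₀.1 (Ne.symm heq)
    have k2 := hs₀ e.1 Ee.1 heq
    have l1 : |σ * (e₀.1.re - e.1.re)| ≤ 2 * ε * (6 * ε) := by
      rw [abs_mul, abs_sub_comm e₀.1.re]
      exact mul_le_mul hσ hX (abs_nonneg _) (by linarith)
    have l2 : |σ₀ * (e.1.re - e₀.1.re)| ≤ 2 * ε * (6 * ε) := by
      rw [abs_mul]
      exact mul_le_mul hσ₀ hX (abs_nonneg _) (by linarith)
    have l3 : 2 * ε * (6 * ε) ≤ 3 * ε := by nlinarith
    have l4 := abs_le.1 l1
    have l5 := abs_le.1 l2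
    exact abs_le.2 ⟨by linarith, by linarith⟩
  have hs := Ee.2.2.2.1
  have hunit := Ee.2.2.1
  have hpos := Ee.2.2.2.2
  have hc1 : 1 - ε ≤ e.2.im - e.1.im := by
    have : (e.2.re - e.1.re) ^ 2 ≤ ε ^ 2 := by
      rw [← sq_abs (e.2.re - e.1.re)]; exact pow_le_pow_left₀ (abs_nonneg _) hs 2
    nlinarith
  have hc2 : e.2.im - e.1.im ≤ 1 := by nlinarith [sq_nonneg (e.2.re - e.1.re)]
  have hX' := abs_le.1 hX
  have hY' := abs_le.1 hY
  have hs' := abs_le.1 hs
  constructor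
  · refine (norm_le_add _).trans ?_
    have r1 : (e.1 - (e₀.1 + Complex.I / 2) + Complex.I / 2).re = e.1.re - e₀.1.re := by
      simp
    have r2 : (e.1 - (e₀.1 + Complex.I / 2) + Complex.I / 2).im = e.1.im - e₀.1.im := by
      simp; ring
    rw [r1, r2]; linarith
  · refine (norm_le_add _).trans ?_
    have r1 : (e.2 - (e₀.1 + Complex.I / 2) - Complex.I / 2).re =
        (e.1.re - e₀.1.re) + (e.2.re - e.1.re) := by
      simp
    have r2 : (e.2 - (e₀.1 + Complex.I / 2) - Complex.I / 2).im =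
        (e.1.im - e₀.1.im) + (e.2.im - e.1.im - 1) := by
      simp; ring
    rw [r1, r2]
    have a1 := abs_add_le (e.1.re - e₀.1.re) (e.2.re - e.1.re)
    have a2 := abs_add_le (e.1.im - e₀.1.im) (e.2.im - e.1.im - 1)
    have a3 : |e.2.im - e.1.im - 1| ≤ ε := abs_le.2 ⟨by linarith, by linarith⟩
    linarith

/-- The local structure used for gluing. -/
def Clustered (ρ : ℝ) (Y : Finset ℂ) : Prop :=
  ∀ y ∈ Y, ∃ u : ℂ, (u = Complex.I ∨ u = -Complex.I) ∧ ‖y + u / 2‖ ≤ ρ ∧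
    ∃ v : ℂ, ‖v - u‖ ≤ ρ ∧ ∀ z ∈ Y, z ≠ y → 0 < ip v (z - y)

lemma clustered_of_prune {C : Finset ℂ} (hC : SC C) {ε : ℝ} (hε' : ε ≤ 1 / 4)
    {E : Finset (ℂ × ℂ)} (hE : ∀ e ∈ E, e.1 ∈ C ∧ e.2 ∈ C ∧ Edge ε e.1 e.2)
    {e₀ : ℂ × ℂ} (he₀ : e₀ ∈ prune (prune E)) (E₃ : Finset (ℂ × ℂ))
    (hE₃ : E₃ ⊆ prune (prune E)) :
    Clustered (11 * ε) ((E₃.image Prod.fst ∪ E₃.image Prod.snd).image
      fun z => z - (e₀.1 + Complex.I / 2)) := by
  have hYC : ∀ z ∈ E₃.image Prod.fst ∪ E₃.image Prod.snd, z ∈ C := by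
    intro z hz
    rcases mem_union.1 hz with h | h
    · obtain ⟨e, he, rfl⟩ := mem_image.1 h
      exact (hE e (mem_of_mem_prune (mem_of_mem_prune (hE₃ he)))).1
    · obtain ⟨e, he, rfl⟩ := mem_image.1 h
      exact (hE e (mem_of_mem_prune (mem_of_mem_prune (hE₃ he)))).2.1
  have hε0 : 0 ≤ ε :=
    (abs_nonneg _).trans (hE e₀ (mem_of_mem_prune (mem_of_mem_prune he₀))).2.2.2.1
  intro y hy
  obtain ⟨y₀, hy₀, rfl⟩ := mem_image.1 hy
  rcases mem_union.1 hy₀ with h | h
  · obtain ⟨e, he, rfl⟩ := mem_image.1 h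
    refine ⟨Complex.I, Or.inl rfl, (cluster hC hε' hE he₀ (hE₃ he)).1, ?_⟩
    obtain ⟨σ, hσ, hs⟩ := prune_lower hC hε' hE (mem_of_mem_prune (hE₃ he))
    refine ⟨⟨-σ, 1⟩, ?_, fun z hz hne => ?_⟩
    · refine (norm_le_add _).trans ?_
      simp only [Complex.sub_re, Complex.sub_im, Complex.I_re, Complex.I_im]
      simp only [sub_zero, sub_self, abs_zero, abs_neg]; linarith
    · obtain ⟨z₀, hz₀, rfl⟩ := mem_image.1 hz
      have := hs z₀ (hYC z₀ hz₀) (by rintro rfl; exact hne rfl)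
      simp only [ip, Complex.sub_re, Complex.sub_im]
      linarith
  · obtain ⟨e, he, rfl⟩ := mem_image.1 h
    refine ⟨-Complex.I, Or.inr rfl, ?_, ?_⟩
    · have := (cluster hC hε' hE he₀ (hE₃ he)).2
      rw [neg_div, ← sub_eq_add_neg]
      exact this
    obtain ⟨τ, hτ, hs⟩ := prune_upper hC hε' hE (mem_of_mem_prune (hE₃ he))
    refine ⟨⟨τ, -1⟩, ?_, fun z hz hne => ?_⟩
    · refine (norm_le_add _).trans ?_
      simp only [Complex.sub_re, Complex.sub_im, Complex.neg_re, Complex.neg_im, Complex.I_re,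
        Complex.I_im]
      simp only [neg_zero, sub_zero, sub_self, abs_zero]; linarith
    · obtain ⟨z₀, hz₀, rfl⟩ := mem_image.1 hz
      have := hs z₀ (hYC z₀ hz₀) (by rintro rfl; exact hne rfl)
      simp only [ip, Complex.sub_re, Complex.sub_im]
      linarith

lemma ip_I_mul (w w' : ℂ) : ip (w * Complex.I) (w' * Complex.I) = ip w w' := by
  simp only [ip, Complex.mul_re, Complex.mul_im, Complex.I_re, Complex.I_im]; ring

lemma abs_ip_cluster {w w' u u' : ℂ} (hu : u = Complex.I ∨ u = -Complex.I)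
    (hu' : u' = Complex.I ∨ u' = -Complex.I) : |ip (w * u) (w' * u')| = |ip w w'| := by
  have e1 : ∀ a b : ℂ, ip (-a) b = - ip a b := by intro a b; simp [ip]; ring
  have e2 : ∀ a b : ℂ, ip a (-b) = - ip a b := by intro a b; simp [ip]; ring
  rcases hu with rfl | rfl <;> rcases hu' with rfl | rfl <;>
    simp [e1, e2, mul_neg, ip_I_mul, abs_neg]

/-- Gluing rotated and rescaled copies. -/
lemma glue {k : ℕ} (w : Fin k → ℂ) (l : Fin k → ℝ) {γ η ρ : ℝ} (hw : ∀ j, ‖w j‖ = 1)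
    (hl : ∀ j, 1 ≤ l j ∧ l j ≤ 1 + η) (hγ : ∀ i j, i ≠ j → |ip (w i) (w j)| ≤ γ)
    (hγ0 : 0 ≤ γ) (hρ0 : 0 ≤ ρ) (hρ1 : ρ ≤ 1 / 8)
    (hnum : (1 + η) * (γ / 2 + 3 * ρ) < 1 / 2 - 3 * ρ)
    {Y : Finset ℂ} (hY : Clustered ρ Y) :
    SC (univ.biUnion fun j => Y.image fun y => (l j : ℂ) * w j * y) := by
  intro x hx
  obtain ⟨j, -, hx⟩ := mem_biUnion.1 hx
  obtain ⟨y, hy, rfl⟩ := mem_image.1 hx
  obtain ⟨u, hu, hyu, v, hvu, hv⟩ := hY y hy
  refine ⟨w j * v, fun z hz hne => ?_⟩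
  obtain ⟨i, -, hz⟩ := mem_biUnion.1 hz
  obtain ⟨z₀, hz₀, rfl⟩ := mem_image.1 hz
  have hns : ∀ i, Complex.normSq (w i) = 1 := by
    intro i; rw [Complex.normSq_eq_norm_sq, hw]; norm_num
  have hnu : ∀ u : ℂ, (u = Complex.I ∨ u = -Complex.I) → ‖u‖ = 1 ∧ ip u u = 1 := by
    rintro u (rfl | rfl) <;> simp [ip]
  by_cases hij : i = j
  · subst hij
    have e : (l i : ℂ) * w i * z₀ - (l i : ℂ) * w i * y = (l i : ℝ) * (w i * (z₀ - y)) := by
      ring
    rw [e, ip_smul_right, ip_mul_mul, hns, one_mul]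
    refine mul_pos (by linarith [(hl i).1]) (hv z₀ hz₀ ?_)
    rintro rfl; exact hne rfl
  · obtain ⟨u', hu', hzu, -⟩ := hY z₀ hz₀
    have e : ip (w j * v) ((l i : ℂ) * w i * z₀ - (l j : ℂ) * w j * y) =
        l i * ip (w j * v) (w i * z₀) - l j * ip v y := by
      rw [ip_sub_right]
      have e1 : (l i : ℂ) * w i * z₀ = (l i : ℝ) * (w i * z₀) := by ring
      have e2 : (l j : ℂ) * w j * y = (l j : ℝ) * (w j * y) := by ring
      rw [e1, e2, ip_smul_right, ip_smul_right, ip_mul_mul, hns, one_mul]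
    rw [e]
    obtain ⟨nu, iu⟩ := hnu u hu
    obtain ⟨nu', -⟩ := hnu u' hu'
    have nY : ∀ y u : ℂ, ‖u‖ = 1 → ‖y + u / 2‖ ≤ ρ → ‖y‖ ≤ 1 := by
      intro y u h1 h2
      have : y = (y + u / 2) - u / 2 := by ring
      rw [this]
      refine (norm_sub_le _ _).trans ?_
      rw [norm_div, h1]
      have h3 : ‖(2 : ℂ)‖ = 2 := by norm_num
      rw [h3]; linarith
    -- first bound
    have b1 : ip v y ≤ -(1 / 2) + 3 * ρ := by
      have e1 : ip v y = ip (v - u) y + ip u (y + u / 2) - ip u u / 2 := by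
        simp only [ip, Complex.sub_re, Complex.sub_im, Complex.add_re, Complex.add_im,
          Complex.div_ofNat_re, Complex.div_ofNat_im]; ring
      have h1 := (le_abs_self _).trans (abs_ip_le (v - u) y)
      have h2 := (le_abs_self _).trans (abs_ip_le u (y + u / 2))
      have h3 : ‖v - u‖ * ‖y‖ ≤ ρ * 1 :=
        mul_le_mul hvu (nY y u nu hyu) (norm_nonneg _) hρ0
      rw [nu, one_mul] at h2
      rw [e1, iu]; linarith
    have b2 : -(γ / 2 + 3 * ρ) ≤ ip (w j * v) (w i * z₀) := by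
      have e1 : ip (w j * v) (w i * z₀) = ip (w j * (v - u)) (w i * z₀) +
          ip (w j * u) (w i * (z₀ + u' / 2)) - ip (w j * u) (w i * u') / 2 := by
        simp only [ip, Complex.mul_re, Complex.mul_im, Complex.sub_re, Complex.sub_im,
          Complex.add_re, Complex.add_im, Complex.div_ofNat_re, Complex.div_ofNat_im]; ring
      have h1 := abs_le.1 (abs_ip_le (w j * (v - u)) (w i * z₀))
      have h2 := abs_le.1 (abs_ip_le (w j * u) (w i * (z₀ + u' / 2)))
      rw [norm_mul, norm_mul, hw, hw, one_mul, one_mul] at h1 h2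
      rw [nu, one_mul] at h2
      have h3 : ‖v - u‖ * ‖z₀‖ ≤ ρ * 1 :=
        mul_le_mul hvu (nY z₀ u' nu' hzu) (norm_nonneg _) hρ0
      have h4 := hγ j i (Ne.symm hij)
      rw [← abs_ip_cluster hu hu'] at h4
      have h5 := abs_le.1 h4
      rw [e1]; linarith
    have hli := hl i
    have hlj := hl j
    have c1 : -((1 + η) * (γ / 2 + 3 * ρ)) ≤ l i * ip (w j * v) (w i * z₀) := by
      have : l i * (γ / 2 + 3 * ρ) ≤ (1 + η) * (γ / 2 + 3 * ρ) :=
        mul_le_mul_of_nonneg_right hli.2 (by linarith)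
      have : l i * -(γ / 2 + 3 * ρ) ≤ l i * ip (w j * v) (w i * z₀) :=
        mul_le_mul_of_nonneg_left b2 (by linarith)
      linarith
    have c2 : l j * ip v y ≤ -(1 / 2) + 3 * ρ := by
      have h1 : l j * ip v y ≤ l j * (-(1 / 2) + 3 * ρ) :=
        mul_le_mul_of_nonneg_left b1 (by linarith)
      nlinarith
    linarith

end Pool.Agent.Lib.MP_129a2b_co
end

section

open Finset

namespace Pool.Agent.Lib.MP_129a2b_co

/-- Pairwise non-parallel unit vectors. -/
lemma exists_directions (k : ℕ) : ∃ (w : Fin k → ℂ) (γ : ℝ), (∀ j, ‖w j‖ = 1) ∧ 0 ≤ γ ∧ γ < 1 ∧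
    ∀ i j, i ≠ j → |ip (w i) (w j)| ≤ γ := by
  set w : Fin k → ℂ := fun j => ⟨1 / √(1 + (j : ℝ) ^ 2), (j : ℝ) / √(1 + (j : ℝ) ^ 2)⟩ with hw
  have hpos : ∀ j : Fin k, 0 < 1 + (j : ℝ) ^ 2 := fun j => by positivity
  have hsq : ∀ j : Fin k, √(1 + (j : ℝ) ^ 2) ^ 2 = 1 + (j : ℝ) ^ 2 := fun j =>
    Real.sq_sqrt (hpos j).le
  have hsp : ∀ j : Fin k, 0 < √(1 + (j : ℝ) ^ 2) := fun j => Real.sqrt_pos.2 (hpos j)
  have hnorm : ∀ j, ‖w j‖ = 1 := by
    intro j
    have : Complex.normSq (w j) = 1 := by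
      simp only [hw, Complex.normSq_apply]
      have h1 := (hsp j).ne'
      field_simp
      rw [hsq]
    rw [Complex.normSq_eq_norm_sq] at this
    nlinarith [norm_nonneg (w j)]
  have hip : ∀ i j, i ≠ j → |ip (w i) (w j)| < 1 := by
    intro i j hij
    have hne : (i : ℝ) ≠ (j : ℝ) := by
      intro h; apply hij; exact Fin.ext (by exact_mod_cast h)
    have e : ip (w i) (w j) = (1 + (i : ℝ) * j) / (√(1 + (i : ℝ) ^ 2) * √(1 + (j : ℝ) ^ 2)) := by
      simp only [hw, ip]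
      have h1 := (hsp i).ne'
      have h2 := (hsp j).ne'
      field_simp
    have hlt : ip (w i) (w j) ^ 2 < 1 := by
      rw [e, div_pow, mul_pow, hsq, hsq, div_lt_one (mul_pos (hpos i) (hpos j))]
      have := sq_pos_of_ne_zero (sub_ne_zero.2 hne)
      nlinarith
    exact (sq_lt_one_iff_abs_lt_one _).1 hlt
  set f : Fin k × Fin k → ℝ := fun p => if p.1 = p.2 then 0 else |ip (w p.1) (w p.2)| with hf
  have hf1 : ∀ p, f p < 1 := by
    intro p
    simp only [hf]
    split_ifs with h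
    · norm_num
    · exact hip _ _ h
  have hf0 : ∀ p, 0 ≤ f p := by
    intro p
    simp only [hf]
    split_ifs with h
    · exact le_rfl
    · exact abs_nonneg _
  rcases isEmpty_or_nonempty (Fin k × Fin k) with hE | hN
  · refine ⟨w, 0, hnorm, le_rfl, zero_lt_one, fun i j _ => ?_⟩
    exact (hE.false (i, j)).elim
  · obtain ⟨p₀, hp₀⟩ := Finite.exists_max f
    refine ⟨w, f p₀, hnorm, hf0 _, hf1 _, fun i j hij => ?_⟩
    have := hp₀ (i, j)
    simp only [hf] at this ⊢
    rw [if_neg hij] at this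
    exact this

/-- Balanced colourings. -/
lemma exists_coloring (L : Finset ℂ) {M : ℕ} (hM : 0 < M) : ∃ c : ℂ → Fin M,
    ∀ i, M * (L.filter fun z => c z = i).card ≤ L.card + (M - 1) := by
  classical
  obtain ⟨f, hf⟩ : ∃ f : ℂ → ℕ, (Set.InjOn f L) ∧ ∀ z ∈ L, f z < L.card := by
    refine ⟨fun z => if h : z ∈ L then (L.equivFin ⟨z, h⟩).val else 0, ?_, ?_⟩
    · intro a ha b hb hab
      have ha' : a ∈ L := ha
      have hb' : b ∈ L := hb
      simp only [ha', hb', dif_pos] at hab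
      have := L.equivFin.injective (Fin.ext hab)
      exact congrArg Subtype.val this
    · intro z hz
      simp only [hz, dif_pos]
      exact (L.equivFin ⟨z, hz⟩).isLt
  refine ⟨fun z => ⟨f z % M, Nat.mod_lt _ hM⟩, fun i => ?_⟩
  have h1 : (L.filter fun z => (⟨f z % M, Nat.mod_lt _ hM⟩ : Fin M) = i).card ≤
      ((range L.card).filter fun a => a ≡ i [MOD M]).card := by
    refine card_le_card_of_injOn f ?_ ?_
    · intro z hz
      have hz' := mem_filter.1 hz
      refine mem_coe.2 (mem_filter.2 ⟨mem_range.2 (hf.2 z hz'.1), ?_⟩)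
      have := congrArg Fin.val hz'.2
      simp only at this
      unfold Nat.ModEq
      rw [this, Nat.mod_eq_of_lt i.isLt]
    · intro a ha b hb hab
      exact hf.1 (mem_filter.1 ha).1 (mem_filter.1 hb).1 hab
  have h2 : ((range L.card).filter fun a => a ≡ i [MOD M]).card =
      Nat.count (fun a => a ≡ i [MOD M]) L.card := by
    rw [Nat.count_eq_card_filter_range]
  have h3 := Nat.count_modEq_card L.card hM i
  have h4 : M * Nat.count (fun a => a ≡ i [MOD M]) L.card ≤ L.card + (M - 1) := by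
    rw [h3]
    have h5 := Nat.div_add_mod L.card M
    split_ifs with h
    · have : 1 ≤ L.card % M := by omega
      rw [mul_add, mul_one]; omega
    · rw [add_zero]; omega
  calc M * _ ≤ M * Nat.count (fun a => a ≡ i [MOD M]) L.card := by
        rw [← h2]; exact Nat.mul_le_mul_left _ h1
    _ ≤ _ := h4

lemma exists_sub_edges (E : Finset (ℂ × ℂ)) (L U : Finset ℂ) (hE : ∀ e ∈ E, e.1 ∈ L ∧ e.2 ∈ U)
    {M : ℕ} (hM : 0 < M) : ∃ E₃ ⊆ E, E.card ≤ M ^ 2 * E₃.card ∧
      M * (E₃.image Prod.fst).card ≤ L.card + (M - 1) ∧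
      M * (E₃.image Prod.snd).card ≤ U.card + (M - 1) := by
  classical
  obtain ⟨c, hc⟩ := exists_coloring L hM
  obtain ⟨d, hd⟩ := exists_coloring U hM
  have hne : (univ : Finset (Fin M × Fin M)).Nonempty := ⟨(⟨0, hM⟩, ⟨0, hM⟩), mem_univ _⟩
  obtain ⟨ij, -, hij⟩ : ∃ ij ∈ (univ : Finset (Fin M × Fin M)), (E.card : ℚ) / (M ^ 2 : ℕ) ≤
      ((E.filter fun e => (c e.1, d e.2) = ij).card : ℚ) := by
    refine exists_le_of_sum_le hne ?_
    have h1 : ∑ ij : Fin M × Fin M, ((E.filter fun e => (c e.1, d e.2) = ij).card : ℚ) =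
        E.card := by
      rw [card_eq_sum_card_fiberwise (f := fun e => (c e.1, d e.2)) (t := univ)
        (fun _ _ => mem_coe.2 (mem_univ _))]
      push_cast; rfl
    rw [h1, sum_const, card_univ, Fintype.card_prod, Fintype.card_fin, nsmul_eq_mul]
    have : ((M * M : ℕ) : ℚ) ≠ 0 := by positivity
    rw [show M ^ 2 = M * M by ring, mul_div_cancel₀ _ this]
  refine ⟨E.filter fun e => (c e.1, d e.2) = ij, filter_subset _ _, ?_, ?_, ?_⟩
  · have hpos : (0 : ℚ) < (M ^ 2 : ℕ) := by positivity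
    rw [div_le_iff₀ hpos] at hij
    have : (E.card : ℚ) ≤ ((M ^ 2 * (E.filter fun e => (c e.1, d e.2) = ij).card : ℕ) : ℚ) := by
      push_cast at hij ⊢; linarith
    exact_mod_cast this
  · refine le_trans (Nat.mul_le_mul_left _ (card_le_card ?_)) (hc ij.1)
    intro z hz
    obtain ⟨e, he, rfl⟩ := mem_image.1 hz
    have he' := mem_filter.1 he
    exact mem_filter.2 ⟨(hE e he'.1).1, by rw [← he'.2]⟩
  · refine le_trans (Nat.mul_le_mul_left _ (card_le_card ?_)) (hd ij.2)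
    intro z hz
    obtain ⟨e, he, rfl⟩ := mem_image.1 hz
    have he' := mem_filter.1 he
    exact mem_filter.2 ⟨(hE e he'.1).2, by rw [← he'.2]⟩

lemma mult_ge_of_edges {D : Finset ℂ} {E : Finset (ℂ × ℂ)} {φ : ℂ → ℂ}
    (hφ : Function.Injective φ) {t : ℝ} (ht : 0 < t)
    (h : ∀ e ∈ E, φ e.1 ∈ D ∧ φ e.2 ∈ D ∧ dist (φ e.1) (φ e.2) = t)
    (hlt : ∀ e ∈ E, e.1.im < e.2.im) : E.card ≤ mult D t := by
  classical
  have hinj1 : Function.Injective fun e : ℂ × ℂ => (φ e.1, φ e.2) := by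
    rintro ⟨a, b⟩ ⟨a', b'⟩ hab
    simp only [Prod.mk.injEq] at hab ⊢
    exact ⟨hφ hab.1, hφ hab.2⟩
  have hinj2 : Function.Injective fun e : ℂ × ℂ => (φ e.2, φ e.1) := by
    rintro ⟨a, b⟩ ⟨a', b'⟩ hab
    simp only [Prod.mk.injEq] at hab ⊢
    exact ⟨hφ hab.2, hφ hab.1⟩
  have hdisj : Disjoint (E.image fun e => (φ e.1, φ e.2)) (E.image fun e => (φ e.2, φ e.1)) := by
    rw [disjoint_left]
    intro x hx hx'
    obtain ⟨e, he, rfl⟩ := mem_image.1 hx
    obtain ⟨e', he', heq⟩ := mem_image.1 hx'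
    simp only [Prod.mk.injEq] at heq
    have h1 := hφ heq.1
    have h2 := hφ heq.2
    have h3 := hlt e he
    have h4 := hlt e' he'
    rw [← h1, ← h2] at h3
    exact lt_asymm h3 h4
  have hsub : (E.image fun e => (φ e.1, φ e.2)) ∪ (E.image fun e => (φ e.2, φ e.1)) ⊆
      D.offDiag.filter fun p => dist p.1 p.2 = t := by
    intro x hx
    rcases mem_union.1 hx with hx | hx
    · obtain ⟨e, he, rfl⟩ := mem_image.1 hx
      obtain ⟨h1, h2, h3⟩ := h e he
      refine mem_filter.2 ⟨mem_offDiag.2 ⟨h1, h2, ?_⟩, h3⟩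
      intro heq
      simp only at heq
      rw [heq, dist_self] at h3
      exact ht.ne h3
    · obtain ⟨e, he, rfl⟩ := mem_image.1 hx
      obtain ⟨h1, h2, h3⟩ := h e he
      refine mem_filter.2 ⟨mem_offDiag.2 ⟨h2, h1, ?_⟩, by rw [dist_comm]; exact h3⟩
      intro heq
      simp only at heq
      rw [heq, dist_self] at h3
      exact ht.ne h3
  have hcard := card_le_card hsub
  rw [card_union_of_disjoint hdisj, card_image_of_injective _ hinj1,
    card_image_of_injective _ hinj2] at hcard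
  unfold mult
  omega

lemma two_mul_mult_le (C : Finset ℂ) (d : ℝ) :
    2 * mult C d ≤ (C.offDiag.filter fun p => dist p.1 p.2 = d).card := by
  unfold mult; omega

lemma mem_dists_of_mult_pos {C : Finset ℂ} {d : ℝ} (h : 0 < mult C d) : d ∈ dists C := by
  unfold mult at h
  have : 0 < (C.offDiag.filter fun p => dist p.1 p.2 = d).card := by omega
  obtain ⟨p, hp⟩ := card_pos.1 this
  obtain ⟨h1, h2⟩ := mem_filter.1 hp
  exact mem_image.2 ⟨p, h1, h2⟩

end Pool.Agent.Lib.MP_129a2b_co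
end

section

open Finset

namespace Pool.Agent.Lib.MP_129a2b_co

/-- Choice of a direction: many unit segments are nearly parallel. -/
lemma exists_direction {ε : ℝ} (hε : 0 < ε) (hε1 : ε ≤ 1 / 4) : ∃ K : ℕ, 0 < K ∧
    ∀ (C : Finset ℂ) (d : ℝ), SC C → 0 < d → ∃ (C₁ : Finset ℂ) (E : Finset (ℂ × ℂ)),
      SC C₁ ∧ C₁.card = C.card ∧ (∀ e ∈ E, e.1 ∈ C₁ ∧ e.2 ∈ C₁ ∧ Edge ε e.1 e.2) ∧
      2 * mult C d ≤ K * E.card := by
  classical
  obtain ⟨T, hTs, hTf, hT⟩ := (isCompact_sphere (0 : ℂ) 1).finite_cover_balls hε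
  have hTne : T.Nonempty := by
    have h1 : (1 : ℂ) ∈ Metric.sphere (0 : ℂ) 1 := by simp
    have := hT h1
    simp only [Set.mem_iUnion] at this
    obtain ⟨t, ht, -⟩ := this
    exact ⟨t, ht⟩
  refine ⟨hTf.toFinset.card, card_pos.2 ?_, fun C d hC hd => ?_⟩
  · obtain ⟨t, ht⟩ := hTne
    exact ⟨t, hTf.mem_toFinset.2 ht⟩
  set P := C.offDiag.filter fun p => dist p.1 p.2 = d with hP
  have hPm := two_mul_mult_le C d
  rw [← hP] at hPm
  -- unit vectors
  set uv : ℂ × ℂ → ℂ := fun p => (p.2 - p.1) / d with huv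
  have huv1 : ∀ p ∈ P, ‖uv p‖ = 1 := by
    intro p hp
    have h1 := (mem_filter.1 hp).2
    rw [dist_comm, dist_eq_norm] at h1
    simp only [huv, norm_div, h1, Complex.norm_real, Real.norm_eq_abs, abs_of_pos hd]
    exact div_self hd.ne'
  have hcov : ∀ p ∈ P, ∃ t ∈ hTf.toFinset, dist (uv p) t < ε := by
    intro p hp
    have : uv p ∈ Metric.sphere (0 : ℂ) 1 := by simp [huv1 p hp]
    have := hT this
    simp only [Set.mem_iUnion, Metric.mem_ball] at this
    obtain ⟨t, ht, h⟩ := this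
    exact ⟨t, hTf.mem_toFinset.2 ht, h⟩
  choose! g hg hg' using hcov
  have hsum : P.card = ∑ t ∈ hTf.toFinset, (P.filter fun p => g p = t).card :=
    card_eq_sum_card_fiberwise hg
  obtain ⟨t, ht, htle⟩ : ∃ t ∈ hTf.toFinset, P.card ≤ hTf.toFinset.card * (P.filter fun p => g p = t).card := by
    by_contra hcon
    push Not at hcon
    have hne : hTf.toFinset.Nonempty := by
      obtain ⟨t, ht⟩ := hTne
      exact ⟨t, hTf.mem_toFinset.2 ht⟩
    have h1 : ∑ t ∈ hTf.toFinset, hTf.toFinset.card * (P.filter fun p => g p = t).card <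
        ∑ t ∈ hTf.toFinset, P.card := sum_lt_sum_of_nonempty hne hcon
    rw [← mul_sum, ← hsum, sum_const, smul_eq_mul] at h1
    exact lt_irrefl _ h1
  have ht1 : ‖t‖ = 1 := by
    have := hTs (hTf.mem_toFinset.1 ht)
    simpa using this
  have ht0 : t ≠ 0 := by rintro rfl; simp at ht1
  have hdC : (d : ℂ) ≠ 0 := by exact_mod_cast hd.ne'
  set w : ℂ := Complex.I / (d * t) with hw
  have hw0 : w ≠ 0 := div_ne_zero Complex.I_ne_zero (mul_ne_zero hdC ht0)
  have hψ : Function.Injective fun z : ℂ => w * z + 0 := by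
    intro a b hab
    simp only [add_zero] at hab
    exact mul_left_cancel₀ hw0 hab
  have hψ2 : Function.Injective fun e : ℂ × ℂ => (w * e.1 + 0, w * e.2 + 0) := by
    rintro ⟨a, b⟩ ⟨a', b'⟩ hab
    simp only [Prod.mk.injEq] at hab ⊢
    exact ⟨hψ hab.1, hψ hab.2⟩
  refine ⟨C.image fun z => w * z + 0,
    (P.filter fun p => g p = t).image fun e => (w * e.1 + 0, w * e.2 + 0), hC.image hw0 0,
    card_image_of_injective _ hψ, ?_, ?_⟩
  · intro e he
    obtain ⟨p, hp, rfl⟩ := mem_image.1 he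
    obtain ⟨hpP, hpt⟩ := mem_filter.1 hp
    have hpC := mem_offDiag.1 (mem_filter.1 hpP).1
    refine ⟨mem_image_of_mem _ hpC.1, mem_image_of_mem _ hpC.2.1, ?_⟩
    have hclose := hg' p hpP
    rw [hpt] at hclose
    set u : ℂ := uv p * (Complex.I / t) with hu
    have hueq : w * p.2 + 0 - (w * p.1 + 0) = u := by
      simp only [hu, huv, hw]
      field_simp
      ring
    have hun : ‖u‖ = 1 := by
      rw [hu, norm_mul, huv1 p hpP, norm_div, ht1]; simp
    have huI : ‖u - Complex.I‖ < ε := by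
      have : u - Complex.I = (uv p - t) * (Complex.I / t) := by
        rw [hu]; field_simp
      rw [this, norm_mul, norm_div, ht1, Complex.norm_I, div_one, mul_one, ← dist_eq_norm]
      exact hclose
    have hre : (w * p.2 + 0).re - (w * p.1 + 0).re = u.re := by rw [← Complex.sub_re, hueq]
    have him : (w * p.2 + 0).im - (w * p.1 + 0).im = u.im := by rw [← Complex.sub_im, hueq]
    unfold Edge
    simp only
    rw [hre, him]
    refine ⟨?_, ?_, ?_⟩
    · have : Complex.normSq u = 1 := by rw [Complex.normSq_eq_norm_sq, hun]; norm_num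
      rw [Complex.normSq_apply] at this
      linarith
    · have := Complex.abs_re_le_norm (u - Complex.I)
      simp only [Complex.sub_re, Complex.I_re, sub_zero] at this
      linarith
    · have := abs_le.1 (Complex.abs_im_le_norm (u - Complex.I))
      simp only [Complex.sub_im, Complex.I_im] at this
      linarith [this.1]
  · rw [card_image_of_injective _ hψ2]
    exact hPm.trans htle

/-- From one very frequent distance to `k` frequent distances. -/
lemma core {k : ℕ} : ∃ K : ℕ, 0 < K ∧ ∀ (C : Finset ℂ) (d : ℝ) (M : ℕ), SC C → 0 < d → 0 < M →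
    ∃ (D : Finset ℂ) (t₀ : ℕ), SC D ∧ M * D.card ≤ k * (2 * C.card + 2 * (M - 1)) ∧
      2 * mult C d ≤ K * (M ^ 2 * t₀ + 8 * C.card) ∧
      (t₀ = 0 ∨ ∃ S ⊆ dists D, S.card = k ∧ ∀ s ∈ S, t₀ ≤ mult D s) := by
  classical
  obtain ⟨w, γ, hw, hγ0, hγ1, hγ⟩ := exists_directions k
  set δ : ℝ := 1 - γ with hδ
  have hδ0 : 0 < δ := by linarith
  set ρ : ℝ := δ / 24 with hρ
  set η : ℝ := δ / 8 with hη
  have hρ0 : 0 < ρ := by positivity
  have hρ1 : ρ ≤ 1 / 24 := by rw [hρ]; linarith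
  have hnum : (1 + η) * (γ / 2 + 3 * ρ) < 1 / 2 - 3 * ρ := by
    rw [hρ, hη]
    have : γ = 1 - δ := by rw [hδ]; ring
    rw [this]
    nlinarith
  set ε : ℝ := ρ / 11 with hε
  have hε0 : 0 < ε := by positivity
  have hε1 : ε ≤ 1 / 4 := by rw [hε]; linarith
  obtain ⟨K, hK, hmain⟩ := exists_direction hε0 hε1
  refine ⟨K, hK, fun C d M hC hd hM => ?_⟩
  obtain ⟨C₁, E, hC₁, hcard, hE, hmE⟩ := hmain C d hC hd
  set E₁ := prune E with hE₁
  set E₂ := prune E₁ with hE₂
  have hEE₁ : ∀ e ∈ E₁, e.1 ∈ C₁ ∧ e.2 ∈ C₁ ∧ Edge ε e.1 e.2 := fun e he =>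
    hE e (mem_of_mem_prune he)
  have b1 : E.card ≤ E₁.card + 4 * C₁.card := card_le_prune' hE
  have b2 : E₁.card ≤ E₂.card + 4 * C₁.card := card_le_prune' hEE₁
  rw [hcard] at b1 b2
  have b3 : E.card ≤ E₂.card + 8 * C.card := by omega
  rcases E₂.eq_empty_or_nonempty with hemp | ⟨e₀, he₀⟩
  · refine ⟨∅, 0, ?_, by simp, ?_, Or.inl rfl⟩
    · intro x hx; simp at hx
    · rw [hemp, card_empty, zero_add] at b3
      calc 2 * mult C d ≤ K * E.card := hmE
        _ ≤ K * (8 * C.card) := Nat.mul_le_mul_left _ b3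
        _ ≤ _ := by rw [mul_zero, zero_add]
  have hsubC : ∀ e ∈ E₂, e.1 ∈ C₁ ∧ e.2 ∈ C₁ ∧ Edge ε e.1 e.2 := fun e he =>
    hEE₁ e (mem_of_mem_prune he)
  obtain ⟨E₃, hE₃sub, hE₃card, hE₃L, hE₃U⟩ := exists_sub_edges E₂ C₁ C₁
    (fun e he => ⟨(hsubC e he).1, (hsubC e he).2.1⟩) hM
  set o : ℂ := e₀.1 + Complex.I / 2 with ho
  set Y := (E₃.image Prod.fst ∪ E₃.image Prod.snd).image fun z => z - o with hY
  have hclus : Clustered ρ Y := by
    have := clustered_of_prune hC₁ hε1 hE he₀ E₃ hE₃sub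
    have e11 : 11 * ε = ρ := by rw [hε]; ring
    rw [e11] at this
    exact this
  set l : Fin k → ℝ := fun j => 1 + η * ((j : ℝ) / k) with hl
  have hlb : ∀ j, 1 ≤ l j ∧ l j ≤ 1 + η := by
    intro j
    have hk : (0 : ℝ) < k := by
      have : 0 < k := lt_of_le_of_lt (Nat.zero_le _) j.isLt
      exact_mod_cast this
    have h1 : (0 : ℝ) ≤ (j : ℝ) / k := by positivity
    have h2 : (j : ℝ) / k ≤ 1 := by
      rw [div_le_one hk]; exact_mod_cast j.isLt.le
    have h3 : 0 < η := by rw [hη]; positivity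
    constructor
    · simp only [hl]; nlinarith
    · simp only [hl]; nlinarith
  have hlinj : Function.Injective l := by
    intro i j hij
    have hk : (0 : ℝ) < k := by
      have : 0 < k := lt_of_le_of_lt (Nat.zero_le _) j.isLt
      exact_mod_cast this
    have h3 : 0 < η := by rw [hη]; positivity
    simp only [hl] at hij
    have h4 : (i : ℝ) / k = (j : ℝ) / k := by
      have := add_left_cancel hij
      exact mul_left_cancel₀ h3.ne' this
    rw [div_left_inj' hk.ne'] at h4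
    exact Fin.ext (by exact_mod_cast h4)
  set D := univ.biUnion fun j => Y.image fun y => (l j : ℂ) * w j * y with hD
  have hSC : SC D := glue w l hw hlb hγ hγ0 hρ0.le (by linarith) hnum hclus
  refine ⟨D, E₃.card, hSC, ?_, ?_, ?_⟩
  · have c1 : D.card ≤ k * Y.card := by
      refine card_biUnion_le.trans ?_
      refine (sum_le_sum fun j _ => card_image_le).trans ?_
      rw [sum_const, card_univ, Fintype.card_fin, smul_eq_mul]
    have c2 : Y.card ≤ (E₃.image Prod.fst).card + (E₃.image Prod.snd).card :=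
      card_image_le.trans (card_union_le _ _)
    rw [hcard] at hE₃L hE₃U
    calc M * D.card ≤ M * (k * Y.card) := Nat.mul_le_mul_left _ c1
      _ = k * (M * Y.card) := by ring
      _ ≤ k * (M * ((E₃.image Prod.fst).card + (E₃.image Prod.snd).card)) :=
          Nat.mul_le_mul_left _ (Nat.mul_le_mul_left _ c2)
      _ ≤ k * (2 * C.card + 2 * (M - 1)) := by
          refine Nat.mul_le_mul_left _ ?_
          rw [mul_add]; omega
  · calc 2 * mult C d ≤ K * E.card := hmE
      _ ≤ K * (M ^ 2 * E₃.card + 8 * C.card) := Nat.mul_le_mul_left _ (by omega)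
  · rcases Nat.eq_zero_or_pos E₃.card with h0 | h0
    · exact Or.inl h0
    right
    have hmult : ∀ j, E₃.card ≤ mult D (l j) := by
      intro j
      have hlj : 0 < l j := by linarith [(hlb j).1]
      have hwj : w j ≠ 0 := by
        intro h; have := hw j; rw [h] at this; simp at this
      refine mult_ge_of_edges (φ := fun z => (l j : ℂ) * w j * (z - o)) ?_ hlj ?_ ?_
      · intro a b hab
        have hne : (l j : ℂ) * w j ≠ 0 := mul_ne_zero (by exact_mod_cast hlj.ne') hwj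
        have := mul_left_cancel₀ hne hab
        exact sub_left_injective this
      · intro e he
        have hmem : ∀ z, z ∈ E₃.image Prod.fst ∪ E₃.image Prod.snd →
            (l j : ℂ) * w j * (z - o) ∈ D := by
          intro z hz
          exact mem_biUnion.2 ⟨j, mem_univ _, mem_image.2 ⟨z - o, mem_image.2 ⟨z, hz, rfl⟩, rfl⟩⟩
        refine ⟨hmem _ (mem_union_left _ (mem_image_of_mem _ he)),
          hmem _ (mem_union_right _ (mem_image_of_mem _ he)), ?_⟩
        have e1 : (l j : ℂ) * w j * (e.1 - o) - (l j : ℂ) * w j * (e.2 - o) =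
            (l j : ℂ) * w j * (e.1 - e.2) := by ring
        rw [dist_eq_norm, e1, norm_mul, norm_mul, hw, mul_one, Complex.norm_real,
          Real.norm_eq_abs, abs_of_pos hlj]
        have hedge := (hsubC e (hE₃sub he)).2.2
        have hn : ‖e.1 - e.2‖ = 1 := by
          have h1 : Complex.normSq (e.1 - e.2) = 1 := by
            rw [Complex.normSq_apply]
            simp only [Complex.sub_re, Complex.sub_im]
            have := hedge.1
            nlinarith
          rw [Complex.normSq_eq_norm_sq] at h1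
          nlinarith [norm_nonneg (e.1 - e.2)]
        rw [hn, mul_one]
      · intro e he
        have := (hsubC e (hE₃sub he)).2.2.2.2
        linarith
    refine ⟨univ.image l, ?_, ?_, ?_⟩
    · intro s hs
      obtain ⟨j, -, rfl⟩ := mem_image.1 hs
      exact mem_dists_of_mult_pos (lt_of_lt_of_le h0 (hmult j))
    · rw [card_image_of_injective _ hlinj, card_univ, Fintype.card_fin]
    · intro s hs
      obtain ⟨j, -, rfl⟩ := mem_image.1 hs
      exact hmult j

end Pool.Agent.Lib.MP_129a2b_co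
end

section

open Finset

namespace Pool.Agent.Lib.MP_129a2b_co

/-- Points on a unit circular arc. -/
noncomputable def pt (N : ℕ) (j : ℕ) : ℂ := ⟨Real.cos ((j : ℝ) / N), Real.sin ((j : ℝ) / N)⟩

lemma pt_angle {N j : ℕ} (h : j < N) : 0 ≤ (j : ℝ) / N ∧ (j : ℝ) / N ≤ 1 := by
  have hN : (0 : ℝ) < N := by exact_mod_cast (lt_of_le_of_lt (Nat.zero_le _) h)
  refine ⟨by positivity, ?_⟩
  rw [div_le_one hN]; exact_mod_cast h.le

lemma pt_im_lt {N a b : ℕ} (hab : a < b) (hb : b < N) : (pt N a).im < (pt N b).im := by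
  have h1 := pt_angle (hab.trans hb)
  have h2 := pt_angle hb
  have hN : (0 : ℝ) < N := by exact_mod_cast (lt_of_le_of_lt (Nat.zero_le _) hb)
  have hpi := Real.pi_gt_three
  simp only [pt]
  refine Real.strictMonoOn_sin ⟨by linarith, by linarith⟩ ⟨by linarith, by linarith⟩ ?_
  rw [div_lt_div_iff_of_pos_right hN]; exact_mod_cast hab

lemma pt_injOn (N : ℕ) : Set.InjOn (pt N) (range N) := by
  intro a ha b hb hab
  simp only [coe_range, Set.mem_Iio] at ha hb
  rcases lt_trichotomy a b with h | h | h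
  · have := pt_im_lt h hb; rw [hab] at this; exact absurd this (lt_irrefl _)
  · exact h
  · have := pt_im_lt h ha; rw [hab] at this; exact absurd this (lt_irrefl _)

lemma pt_dist (N a m : ℕ) : dist (pt N a) (pt N (a + m)) = √(2 - 2 * Real.cos ((m : ℝ) / N)) := by
  rw [Complex.dist_eq_re_im]
  congr 1
  simp only [pt]
  have h : (m : ℝ) / N = ((a + m : ℕ) : ℝ) / N - (a : ℝ) / N := by push_cast; ring
  rw [h, Real.cos_sub]
  nlinarith [Real.sin_sq_add_cos_sq ((a : ℝ) / N), Real.sin_sq_add_cos_sq (((a + m : ℕ) : ℝ) / N)]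

lemma exists_arc {k N : ℕ} (hk : 1 ≤ k) (hN : k + 1 ≤ N) :
    ∃ C : Finset ℂ, IsConvexGon N C ∧ N - k ≤ r k C := by
  classical
  set C := (range N).image (pt N) with hC
  have hcard : C.card = N := by
    rw [hC, card_image_of_injOn (pt_injOn N), card_range]
  have hN0 : (0 : ℝ) < N := by
    have : 0 < N := by omega
    exact_mod_cast this
  have hpi := Real.pi_gt_three
  have hSC : SC C := by
    intro x hx
    obtain ⟨a, ha, rfl⟩ := mem_image.1 hx
    refine ⟨-pt N a, fun z hz hne => ?_⟩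
    obtain ⟨b, hb, rfl⟩ := mem_image.1 hz
    have h1 : (0 : ℝ) < Complex.normSq (pt N b - pt N a) := Complex.normSq_pos.2 (sub_ne_zero.2 hne)
    rw [Complex.normSq_apply] at h1
    simp only [ip, pt, Complex.sub_re, Complex.sub_im, Complex.neg_re, Complex.neg_im] at h1 ⊢
    nlinarith [Real.sin_sq_add_cos_sq ((a : ℝ) / N), Real.sin_sq_add_cos_sq ((b : ℝ) / N)]
  refine ⟨C, hcard ▸ hSC.isConvexGon, ?_⟩
  set f : ℕ → ℝ := fun m => √(2 - 2 * Real.cos ((m : ℝ) / N)) with hf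
  have hang : ∀ m ∈ Finset.Icc 1 k, 0 < (m : ℝ) / N ∧ (m : ℝ) / N ≤ 1 := by
    intro m hm
    obtain ⟨h1, h2⟩ := mem_Icc.1 hm
    have h3 : (0 : ℝ) < m := by exact_mod_cast (by omega : 0 < m)
    refine ⟨by positivity, ?_⟩
    rw [div_le_one hN0]; exact_mod_cast (by omega : m ≤ N)
  have hcos : ∀ m ∈ Finset.Icc 1 k, Real.cos ((m : ℝ) / N) < 1 := by
    intro m hm
    obtain ⟨h1, h2⟩ := hang m hm
    rw [← Real.cos_zero]
    exact Real.strictAntiOn_cos ⟨le_rfl, by linarith⟩ ⟨h1.le, by linarith⟩ h1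
  have hfpos : ∀ m ∈ Finset.Icc 1 k, 0 < f m := by
    intro m hm
    have := hcos m hm
    exact Real.sqrt_pos.2 (by linarith)
  have hfinj : Set.InjOn f (Finset.Icc 1 k : Finset ℕ) := by
    intro a ha b hb hab
    have ha' : a ∈ Finset.Icc 1 k := ha
    have hb' : b ∈ Finset.Icc 1 k := hb
    have h1 := hcos a ha'
    have h2 := hcos b hb'
    simp only [hf] at hab
    have h3 := (Real.sqrt_inj (by linarith) (by linarith)).1 hab
    have h4 : Real.cos ((a : ℝ) / N) = Real.cos ((b : ℝ) / N) := by linarith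
    have h5 := Real.injOn_cos ⟨(hang a ha').1.le, by linarith [(hang a ha').2]⟩
      ⟨(hang b hb').1.le, by linarith [(hang b hb').2]⟩ h4
    rw [div_left_inj' hN0.ne'] at h5
    exact_mod_cast h5
  have hmult : ∀ m ∈ Finset.Icc 1 k, N - k ≤ mult C (f m) := by
    intro m hm
    obtain ⟨hm1, hm2⟩ := mem_Icc.1 hm
    have hinj : Set.InjOn (fun a => (pt N a, pt N (a + m))) (range (N - m)) := by
      intro a ha b hb hab
      simp only [coe_range, Set.mem_Iio] at ha hb
      simp only [Prod.mk.injEq] at hab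
      exact pt_injOn N (by simp; omega) (by simp; omega) hab.1
    have key := mult_ge_of_edges (D := C) (E := (range (N - m)).image fun a => (pt N a, pt N (a + m)))
      (φ := id) Function.injective_id (hfpos m hm) ?_ ?_
    · rw [card_image_of_injOn hinj, card_range] at key
      omega
    · intro e he
      obtain ⟨a, ha, rfl⟩ := mem_image.1 he
      rw [mem_range] at ha
      exact ⟨mem_image_of_mem _ (mem_range.2 (by omega)),
        mem_image_of_mem _ (mem_range.2 (by omega)), pt_dist N a m⟩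
    · intro e he
      obtain ⟨a, ha, rfl⟩ := mem_image.1 he
      rw [mem_range] at ha
      exact pt_im_lt (by omega) (by omega)
  refine le_r_of_subset hk ((Finset.Icc 1 k).image f) ?_ ?_ ?_
  · intro d hd
    obtain ⟨m, hm, rfl⟩ := mem_image.1 hd
    have := hmult m hm
    exact mem_dists_of_mult_pos (by omega)
  · rw [card_image_of_injOn hfinj, Nat.card_Icc]; omega
  · intro d hd
    obtain ⟨m, hm, rfl⟩ := mem_image.1 hd
    exact hmult m hm

theorem main (k : ℕ) (hk : 1 ≤ k) : ∃ c : ℝ, 0 < c ∧ ∀ n : ℕ, k + 1 ≤ n →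
    c * (rmax 1 n : ℝ) ≤ (rmax k n : ℝ) ∧ rmax k n ≤ rmax 1 n := by
  classical
  obtain ⟨K, hK, hcore⟩ := core (k := k)
  set M := 2 * k + 1 with hM
  set A : ℕ := K * (M ^ 2 + 8 * (k + 1)) + 16 * k ^ 4 with hA
  have hApos : 0 < A := by positivity
  have hub : ∀ n, k + 1 ≤ n → rmax k n ≤ rmax 1 n := by
    intro n hn
    obtain ⟨C₀, hC₀, -⟩ := exists_arc hk hn
    obtain ⟨C, hC, hrC⟩ := exists_rmax (i := k) ⟨C₀, hC₀⟩
    rw [← hrC]
    exact (r_le_r_one k C).trans (r_le_rmax hC)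
  have hlb : ∀ n, k + 1 ≤ n → n - k ≤ rmax k n := by
    intro n hn
    obtain ⟨C₀, hC₀, h⟩ := exists_arc hk hn
    exact h.trans (r_le_rmax hC₀)
  have key : ∀ n, k + 1 ≤ n → rmax 1 n ≤ A * rmax k n := by
    intro n hn
    have hl := hlb n hn
    have hl1 : 1 ≤ rmax k n := by omega
    have hl2 : n ≤ (k + 1) * rmax k n := by
      have : (k + 1) * (n - k) ≤ (k + 1) * rmax k n := Nat.mul_le_mul_left _ hl
      refine le_trans ?_ this
      obtain ⟨j, rfl⟩ := Nat.exists_eq_add_of_le hn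
      have : k + 1 + j - k = 1 + j := by omega
      rw [this]; nlinarith [Nat.zero_le (k * j)]
    obtain ⟨C₀, hC₀, -⟩ := exists_arc hk hn
    obtain ⟨C, hC, hrC⟩ := exists_rmax (i := 1) ⟨C₀, hC₀⟩
    rcases lt_or_ge n (4 * k ^ 2) with hsmall | hlarge
    · have h1 : rmax 1 n ≤ n ^ 2 := by
        rw [← hrC, ← hC.1]; exact r_le 1 C
      have h2 : n ^ 2 ≤ (4 * k ^ 2) ^ 2 := Nat.pow_le_pow_left hsmall.le 2
      calc rmax 1 n ≤ 16 * k ^ 4 := by
            refine h1.trans (h2.trans (le_of_eq ?_)); ring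
        _ ≤ A := Nat.le_add_left _ _
        _ ≤ A * rmax k n := Nat.le_mul_of_pos_right _ hl1
    · rcases r_one_eq C with h0 | ⟨d, hd, hdm⟩
      · rw [← hrC, h0]; exact Nat.zero_le _
      have hdpos : 0 < d := by
        obtain ⟨p, hp, rfl⟩ := mem_image.1 hd
        exact dist_pos.2 (mem_offDiag.1 hp).2.2
      obtain ⟨D, t₀, hD, hDcard, hDm, hDS⟩ := hcore C d M hC.sc hdpos (by omega)
      rw [hC.1] at hDcard hDm
      rw [hdm, hrC] at hDm
      have hDn : D.card ≤ n := by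
        have h1 : M * D.card ≤ M * n := by
          refine hDcard.trans ?_
          rw [hM]
          have : 2 * k + 1 - 1 = 2 * k := by omega
          rw [this]
          nlinarith
        exact Nat.le_of_mul_le_mul_left h1 (by omega)
      have ht : t₀ ≤ rmax k n := by
        rcases Nat.eq_zero_or_pos t₀ with h0 | h0
        · omega
        rcases hDS with h1 | ⟨S, hS, hSc, hSt⟩
        · omega
        have hSne : S.Nonempty := card_pos.1 (by omega)
        have hDne : D.Nonempty := by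
          obtain ⟨s, hs⟩ := hSne
          obtain ⟨p, hp, -⟩ := mem_image.1 (hS hs)
          exact ⟨p.1, (mem_offDiag.1 hp).1⟩
        obtain ⟨D', hDD', hD'c, hD'⟩ := hD.exists_superset hDne hDn
        have h2 : t₀ ≤ r k D' := by
          refine le_r_of_subset hk S ?_ hSc.ge ?_
          · intro s hs
            exact mem_dists_of_mult_pos
              (lt_of_lt_of_le h0 ((hSt s hs).trans (mult_mono hDD' s)))
          · intro s hs
            exact (hSt s hs).trans (mult_mono hDD' s)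
        exact h2.trans (r_le_rmax (hD'c ▸ hD'.isConvexGon))
      calc rmax 1 n ≤ 2 * rmax 1 n := by omega
        _ ≤ K * (M ^ 2 * t₀ + 8 * n) := hDm
        _ ≤ K * (M ^ 2 * rmax k n + 8 * ((k + 1) * rmax k n)) := by gcongr
        _ = K * (M ^ 2 + 8 * (k + 1)) * rmax k n := by ring
        _ ≤ A * rmax k n := Nat.mul_le_mul_right _ (Nat.le_add_right _ _)
  refine ⟨1 / A, by positivity, fun n hn => ⟨?_, hub n hn⟩⟩
  have hAr : (0 : ℝ) < A := by exact_mod_cast hApos
  rw [div_mul_eq_mul_div, one_mul, div_le_iff₀ hAr]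
  have := key n hn
  have h2 : (rmax 1 n : ℝ) ≤ ((A * rmax k n : ℕ) : ℝ) := by exact_mod_cast this
  push_cast at h2
  linarith

end Pool.Agent.Lib.MP_129a2b_co
end
end
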